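import Mathlib
import Pool.Agent.Helper741.Garside

/-! Definitions: standard parabolic subgroups, Garside elements, the generating sets `X_P` and
`X_NP` of an Artin-Tits group, and the comparison of generating sets. -/

set_option autoImplicit false

namespace Pool.Agent.TH538.AT

open Pool.Agent.Helper741

section words

variable {G : Type*} [Group G]

/-- The word length of `g` with respect to `X`: the least length of a word in the elements of `X`
and their inverses with product `g` (and `⊤` if there is no such word). -/
noncomputable def wordLength (X : Set G) (g : G) : ℕ∞ :=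
  ⨅ l ∈ {l : List G | (∀ x ∈ l, x ∈ X ∨ x⁻¹ ∈ X) ∧ l.prod = g}, (l.length : ℕ∞)

/-- The word metric `d_X(g, h)`. -/
noncomputable def wordDist (X : Set G) (g h : G) : ℕ∞ := wordLength X (g⁻¹ * h)

/-- `X ≼ Y`: the supremum of `d_X(1, y)` over `y ∈ Y` is finite. -/
def Preceq (X Y : Set G) : Prop := ∃ C : ℕ, ∀ y ∈ Y, wordDist X 1 y ≤ C

/-- The identity map `(G, d_X) → (G, d_Y)` is a quasi-isometry. -/
def IdIsQuasiIsometry (X Y : Set G) : Prop :=
  ∃ C : ℕ, ∀ g h : G, wordDist Y g h ≤ C * wordDist X g h + C ∧
    wordDist X g h ≤ C * wordDist Y g h + C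

end words

variable {S : Type*}

/-- The Coxeter graph: `s` and `t` are joined if `m_{s,t} ≥ 3` or `m_{s,t} = ∞` (coded by `0`). -/
def coxGraph (M : CoxeterMatrix S) : SimpleGraph S where
  Adj s t := s ≠ t ∧ M s t ≠ 2
  symm := ⟨fun s t h => ⟨h.1.symm, by rw [M.symmetric]; exact h.2⟩⟩
  loopless := ⟨fun s h => h.1 rfl⟩

/-- The standard parabolic subgroup `A_T`. -/
def parabolic (M : CoxeterMatrix S) (T : Set S) : Subgroup (Artin M) :=
  Subgroup.closure (Artin.gen M '' T)

/-- `A_T` is proper and irreducible: `T ≠ S`, and `T` is nonempty with connected induced graph. -/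
def ProperIrreducible (M : CoxeterMatrix S) (T : Set S) : Prop :=
  T ≠ Set.univ ∧ ((coxGraph M).induce T).Connected

/-- `d` is the Garside element `Δ_S`: the product in `A_S` of the letters of a reduced word, in the
Coxeter group, of an element of maximal length. -/
def IsGarside (M : CoxeterMatrix S) (d : Artin M) : Prop :=
  ∃ ω : List S, M.toCoxeterSystem.IsReduced ω ∧
    (∀ w : M.Group, M.toCoxeterSystem.length w ≤
      M.toCoxeterSystem.length (M.toCoxeterSystem.wordProd ω)) ∧
    d = (ω.map (Artin.gen M)).prod

/-- The union of the proper irreducible standard parabolic subgroups and `⟨Δ_S²⟩`. -/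
def XP (M : CoxeterMatrix S) : Set (Artin M) :=
  {g | ∃ T, ProperIrreducible M T ∧ g ∈ parabolic M T} ∪
    {g | ∃ d, IsGarside M d ∧ g ∈ Subgroup.zpowers (d ^ 2)}

/-- The union of the normalizers of the proper irreducible standard parabolic subgroups. -/
def XNP (M : CoxeterMatrix S) : Set (Artin M) :=
  {g | ∃ T, ProperIrreducible M T ∧ g ∈ Subgroup.normalizer (parabolic M T : Set (Artin M))}

end Pool.Agent.TH538.AT
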