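import Mathlib
import Pool.Agent.Helper741.Garside

/-! Quadratic relations and alternating products: the braid relation of length `m` for
`u - b₁`, `u - b₂` when `b₁ b₂ b₁ = (2 cos (π/m))² b₁`. -/

set_option autoImplicit false

namespace Pool.Agent.TH538.AT

open Pool.Agent.Helper741 Real

section alg

variable {R : Type*} [Ring R] [Algebra ℂ R]

lemma alt_add {G : Type*} [Monoid G] (a b : G) (k l : ℕ) :
    alt a b (k + l) = alt a b k * (if Even k then alt a b l else alt b a l) := by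
  induction k generalizing a b with
  | zero => simp
  | succ k ih =>
    rw [show k + 1 + l = (k + l) + 1 by ring, alt_succ, ih, alt_succ a b k]
    by_cases h : Even k
    · simp [h, Nat.even_add_one, mul_assoc]
    · simp [h, Nat.even_add_one, mul_assoc]

lemma alt_add_two {G : Type*} [Monoid G] (a b : G) (k : ℕ) :
    alt a b (k + 2) = a * b * alt a b k := by
  rw [show k + 2 = (k + 1) + 1 by ring, alt_succ, alt_succ, mul_assoc]

/-- `(a b)^m = (b a)^m` if the alternating products of length `m` agree. -/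
lemma pow_eq_of_alt {G : Type*} [Monoid G] (a b : G) (m : ℕ) (h : alt a b m = alt b a m) :
    (a * b) ^ m = (b * a) ^ m := by
  rw [← alt_mul_two, ← alt_mul_two, two_mul, alt_add, alt_add, h]

/-- The data of two rank one elements. -/
structure Pair (u x N : ℂ) (b₁ b₂ : R) : Prop where
  hu : u ≠ 0
  hx : x = u + u⁻¹
  h11 : b₁ * b₁ = x • b₁
  h22 : b₂ * b₂ = x • b₂
  h121 : b₁ * b₂ * b₁ = N ^ 2 • b₁
  h212 : b₂ * b₁ * b₂ = N ^ 2 • b₂

namespace Pair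

variable {u x N : ℂ} {b₁ b₂ : R}

lemma symm (h : Pair u x N b₁ b₂) : Pair u x N b₂ b₁ :=
  ⟨h.hu, h.hx, h.h22, h.h11, h.h212, h.h121⟩

/-- the element killed by `b₁` and `b₂` -/
def Z (x N : ℂ) (b₁ b₂ : R) : R := (x ^ 2 - N ^ 2) • (1 : R) - x • (b₁ + b₂) + b₁ * b₂ + b₂ * b₁

lemma Z_symm (x N : ℂ) (b₁ b₂ : R) : Z x N b₂ b₁ = Z x N b₁ b₂ := by
  unfold Z
  rw [add_comm b₂ b₁, add_assoc, add_comm (b₂ * b₁) (b₁ * b₂), ← add_assoc]

lemma Z_mul_left (h : Pair u x N b₁ b₂) : Z x N b₁ b₂ * b₁ = 0 := by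
  have e1 : b₂ * b₁ * b₁ = x • (b₂ * b₁) := by rw [mul_assoc, h.h11, mul_smul_comm]
  unfold Z
  rw [add_mul, add_mul, sub_mul, smul_mul_assoc, smul_mul_assoc, one_mul, add_mul, h.h11, h.h121,
    e1]
  module

lemma Z_mul_right (h : Pair u x N b₁ b₂) : Z x N b₁ b₂ * b₂ = 0 := by
  rw [← Z_symm]
  exact h.symm.Z_mul_left

lemma quad (h : Pair u x N b₁ b₂) :
    (u • (1 : R) - b₁) * (u • (1 : R) - b₂) * ((u • (1 : R) - b₁) * (u • (1 : R) - b₂)) =
      (N ^ 2 - 2) • ((u • (1 : R) - b₁) * (u • (1 : R) - b₂)) - 1 + u ^ 2 • Z x N b₁ b₂ := by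
  have hX : (u • (1 : R) - b₁) * (u • (1 : R) - b₂) =
      u ^ 2 • (1 : R) - u • b₁ - u • b₂ + b₁ * b₂ := by
    rw [sub_mul, mul_sub, mul_sub, smul_mul_assoc, smul_mul_assoc, mul_smul_comm, mul_smul_comm,
      one_mul, one_mul, mul_one]
    module
  have e1 : b₁ * (b₁ * b₂) = x • (b₁ * b₂) := by rw [← mul_assoc, h.h11, smul_mul_assoc]
  have e2 : b₁ * b₂ * b₂ = x • (b₁ * b₂) := by rw [mul_assoc, h.h22, mul_smul_comm]
  have e3 : b₂ * (b₁ * b₂) = N ^ 2 • b₂ := by rw [← mul_assoc, h.h212]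
  have e4 : b₁ * b₂ * (b₁ * b₂) = N ^ 2 • (b₁ * b₂) := by
    rw [← mul_assoc, h.h121, smul_mul_assoc]
  have hXX : (u ^ 2 • (1 : R) - u • b₁ - u • b₂ + b₁ * b₂) *
      (u ^ 2 • (1 : R) - u • b₁ - u • b₂ + b₁ * b₂) =
      u ^ 4 • (1 : R) + (- 2 * u ^ 3) • b₁ + (- 2 * u ^ 3) • b₂ + (2 * u ^ 2) • (b₁ * b₂)
      + u ^ 2 • (b₁ * b₁) + u ^ 2 • (b₂ * b₂) + u ^ 2 • (b₁ * b₂) + u ^ 2 • (b₂ * b₁)
      - u • (b₁ * (b₁ * b₂)) - u • (b₁ * b₂ * b₁) - u • (b₂ * (b₁ * b₂)) - u • (b₁ * b₂ * b₂)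
      + b₁ * b₂ * (b₁ * b₂) := by
    simp only [add_mul, sub_mul, mul_add, mul_sub, smul_mul_assoc, mul_smul_comm, one_mul, mul_one]
    module
  rw [hX, hXX, e1, e2, e3, e4, h.h11, h.h22, h.h121]
  unfold Z
  rw [h.hx]
  have hu := h.hu
  match_scalars <;> field_simp <;> ring

lemma Z_mul_alt (h : Pair u x N b₁ b₂) (k : ℕ) :
    Z x N b₁ b₂ * alt (u • (1 : R) - b₁) (u • (1 : R) - b₂) k = u ^ k • Z x N b₁ b₂ := by
  induction k with
  | zero => simp
  | succ k ih =>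
    rw [alt_succ', ← mul_assoc, ih, smul_mul_assoc]
    split_ifs
    · rw [mul_sub, h.Z_mul_left, mul_smul_comm, mul_one, sub_zero, smul_smul, pow_succ]
    · rw [mul_sub, h.Z_mul_right, mul_smul_comm, mul_one, sub_zero, smul_smul, pow_succ]

lemma alt_rec (h : Pair u x N b₁ b₂) (k : ℕ) :
    alt (u • (1 : R) - b₁) (u • (1 : R) - b₂) (k + 4) =
      (N ^ 2 - 2) • alt (u • (1 : R) - b₁) (u • (1 : R) - b₂) (k + 2) -
        alt (u • (1 : R) - b₁) (u • (1 : R) - b₂) k + u ^ (k + 2) • Z x N b₁ b₂ := by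
  rw [show k + 4 = (k + 2) + 2 by ring, alt_add_two, alt_add_two, ← mul_assoc, h.quad, add_mul,
    sub_mul, smul_mul_assoc, one_mul, smul_mul_assoc, h.Z_mul_alt, smul_smul, ← pow_add,
    add_comm 2 k]

/-- difference of the two alternating products -/
noncomputable def D (u : ℂ) (b₁ b₂ : R) (k : ℕ) : R :=
  alt (u • (1 : R) - b₁) (u • (1 : R) - b₂) k - alt (u • (1 : R) - b₂) (u • (1 : R) - b₁) k

lemma D_rec (h : Pair u x N b₁ b₂) (k : ℕ) :
    D u b₁ b₂ (k + 4) = (N ^ 2 - 2) • D u b₁ b₂ (k + 2) - D u b₁ b₂ k := by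
  unfold D
  rw [h.alt_rec, h.symm.alt_rec, Z_symm]
  module

lemma D_three (h : Pair u x N b₁ b₂) : D u b₁ b₂ 3 = (N ^ 2 - 1) • D u b₁ b₂ 1 := by
  have hX : ∀ b₁ b₂ : R, (u • (1 : R) - b₁) * ((u • (1 : R) - b₂) * (u • (1 : R) - b₁)) =
      u ^ 3 • (1 : R) - (2 * u ^ 2) • b₁ - u ^ 2 • b₂ + u • (b₁ * b₂) + u • (b₂ * b₁)
      + u • (b₁ * b₁) - b₁ * b₂ * b₁ := by
    intro b₁ b₂
    simp only [sub_mul, mul_sub, smul_mul_assoc, mul_smul_comm, one_mul, mul_one, mul_assoc]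
    module
  unfold D
  rw [alt_succ, alt_succ, alt_one, alt_succ, alt_succ, alt_one, hX, hX, h.h121,
    h.h212, h.h11, h.h22, h.hx]
  have hu := h.hu
  match_scalars <;> field_simp <;> ring

lemma D_zero (u : ℂ) (b₁ b₂ : R) : D u b₁ b₂ 0 = 0 := by simp [D]

/-- even lengths -/
lemma D_even (θ : ℝ) (h : Pair u x (((2 * cos θ : ℝ)) : ℂ) b₁ b₂) (k : ℕ) :
    ((sin (2 * θ) : ℝ) : ℂ) • D u b₁ b₂ (2 * k) =
      ((sin ((2 * k : ℕ) * θ) : ℝ) : ℂ) • D u b₁ b₂ 2 := by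
  induction k using Nat.strong_induction_on with
  | _ k ih =>
  match k with
  | 0 => simp [D_zero]
  | 1 => norm_num
  | (k + 2) =>
    have h1 := ih (k + 1) (by omega)
    have h0 := ih k (by omega)
    rw [show 2 * (k + 2) = 2 * k + 4 by ring, h.D_rec, smul_sub, smul_comm,
      show 2 * k + 2 = 2 * (k + 1) by ring, h1, h0, smul_smul, ← sub_smul]
    congr 1
    rw [show (((2 * cos θ : ℝ) : ℂ)) ^ 2 - 2 = ((2 * cos (2 * θ) : ℝ) : ℂ) by
      rw [cos_two_mul]; push_cast; ring]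
    norm_cast
    have e1 : ((2 * k + 4 : ℕ) : ℝ) * θ = ((2 * (k + 1) : ℕ) : ℝ) * θ + 2 * θ := by push_cast; ring
    have e2 : ((2 * k : ℕ) : ℝ) * θ = ((2 * (k + 1) : ℕ) : ℝ) * θ - 2 * θ := by push_cast; ring
    rw [e1, e2, sin_add, sin_sub]
    ring

lemma D_odd (θ : ℝ) (h : Pair u x (((2 * cos θ : ℝ)) : ℂ) b₁ b₂) (k : ℕ) :
    ((sin θ : ℝ) : ℂ) • D u b₁ b₂ (2 * k + 1) =
      ((sin ((2 * k + 1 : ℕ) * θ) : ℝ) : ℂ) • D u b₁ b₂ 1 := by
  induction k using Nat.strong_induction_on with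
  | _ k ih =>
  match k with
  | 0 => simp
  | 1 =>
    rw [show 2 * 1 + 1 = 3 by ring, h.D_three, smul_smul]
    congr 1
    have e1 : ((3 : ℕ) : ℝ) * θ = 2 * θ + θ := by push_cast; ring
    rw [e1, sin_add, sin_two_mul, cos_two_mul]
    push_cast
    ring
  | (k + 2) =>
    have h1 := ih (k + 1) (by omega)
    have h0 := ih k (by omega)
    rw [show 2 * (k + 2) + 1 = (2 * k + 1) + 4 by ring, h.D_rec, smul_sub, smul_comm,
      show 2 * k + 1 + 2 = 2 * (k + 1) + 1 by ring, h1, h0, smul_smul, ← sub_smul]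
    congr 1
    rw [show (((2 * cos θ : ℝ) : ℂ)) ^ 2 - 2 = ((2 * cos (2 * θ) : ℝ) : ℂ) by
      rw [cos_two_mul]; push_cast; ring]
    norm_cast
    have e1 : ((2 * k + 1 + 4 : ℕ) : ℝ) * θ = ((2 * (k + 1) + 1 : ℕ) : ℝ) * θ + 2 * θ := by
      push_cast; ring
    have e2 : ((2 * k + 1 : ℕ) : ℝ) * θ = ((2 * (k + 1) + 1 : ℕ) : ℝ) * θ - 2 * θ := by
      push_cast; ring
    rw [e1, e2, sin_add, sin_sub]
    ring

/-- **Braid relation.** -/
theorem braid (m : ℕ) (hm : 3 ≤ m) (h : Pair u x (((2 * cos (π / m) : ℝ)) : ℂ) b₁ b₂) :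
    alt (u • (1 : R) - b₁) (u • (1 : R) - b₂) m = alt (u • (1 : R) - b₂) (u • (1 : R) - b₁) m := by
  have hm0 : (m : ℝ) ≠ 0 := by positivity
  have hm3 : (3 : ℝ) ≤ m := by exact_mod_cast hm
  have hmul : (m : ℝ) * (π / m) = π := by field_simp
  have key : D u b₁ b₂ m = 0 := by
    rcases Nat.even_or_odd' m with ⟨k, hk | hk⟩
    · have h1 := D_even (π / m) h k
      rw [← hk, hmul, sin_pi] at h1
      have hs : sin (2 * (π / m)) ≠ 0 := by
        apply ne_of_gt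
        apply sin_pos_of_pos_of_lt_pi
        · positivity
        · rw [mul_div_assoc', div_lt_iff₀ (by linarith)]
          nlinarith [pi_pos]
      have h2 : ((sin (2 * (π / m)) : ℝ) : ℂ) ≠ 0 := by exact_mod_cast hs
      rw [Complex.ofReal_zero, zero_smul] at h1
      exact (smul_eq_zero.mp h1).resolve_left h2
    · have h1 := D_odd (π / m) h k
      rw [← hk, hmul, sin_pi] at h1
      have hs : sin (π / m) ≠ 0 := by
        apply ne_of_gt
        apply sin_pos_of_pos_of_lt_pi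
        · positivity
        · rw [div_lt_iff₀ (by linarith)]
          nlinarith [pi_pos]
      have h2 : ((sin (π / m) : ℝ) : ℂ) ≠ 0 := by exact_mod_cast hs
      rw [Complex.ofReal_zero, zero_smul] at h1
      exact (smul_eq_zero.mp h1).resolve_left h2
  exact sub_eq_zero.mp key

/-- `(T₁ T₂)^m` fixes everything killed by `Z`. -/
theorem pow_mul_eq (m : ℕ) (hm : 3 ≤ m) (h : Pair u x (((2 * cos (π / m) : ℝ)) : ℂ) b₁ b₂)
    (b : R) (hb : Z x (((2 * cos (π / m) : ℝ)) : ℂ) b₁ b₂ * b = 0) :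
    ((u • (1 : R) - b₁) * (u • (1 : R) - b₂)) ^ m * b = b := by
  set θ := π / (m : ℝ) with hθ
  set X : R := (u • (1 : R) - b₁) * (u • (1 : R) - b₂) with hX
  have hq : ∀ k : ℕ, X ^ (k + 2) * b = (((2 * cos (2 * θ) : ℝ)) : ℂ) • (X ^ (k + 1) * b) -
      X ^ k * b := by
    intro k
    have h1 := h.quad
    rw [← hX] at h1
    rw [pow_add, pow_two, h1, mul_add, add_mul, mul_sub, sub_mul, mul_smul_comm, smul_mul_assoc,
      mul_one, mul_smul_comm, smul_mul_assoc, mul_assoc (X ^ k) (Z _ _ _ _) b, hb, mul_zero,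
      smul_zero, add_zero, ← pow_succ]
    congr 2
    rw [cos_two_mul]; push_cast; ring
  have key : ∀ k : ℕ, ((sin (2 * θ) : ℝ) : ℂ) • (X ^ (k + 1) * b) =
      ((sin ((2 * (k + 1) : ℕ) * θ) : ℝ) : ℂ) • (X * b) - ((sin ((2 * k : ℕ) * θ) : ℝ) : ℂ) • b := by
    intro k
    induction k using Nat.strong_induction_on with
    | _ k ih =>
    match k with
    | 0 => simp
    | 1 =>
      rw [hq 0, smul_sub, zero_add, pow_one, pow_zero, one_mul, smul_smul]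
      congr 2
      rw [show ((2 * (1 + 1) : ℕ) : ℝ) * θ = 2 * (2 * θ) by push_cast; ring, sin_two_mul (2 * θ)]
      push_cast; ring
    | (k + 2) =>
      have h1 := ih (k + 1) (by omega)
      have h0 := ih k (by omega)
      rw [show k + 2 + 1 = (k + 1) + 2 by ring, hq (k + 1), smul_sub, smul_comm, h1, h0, smul_sub,
        smul_smul, smul_smul]
      have e1 : ((2 * (k + 1 + 2) : ℕ) : ℝ) * θ = ((2 * (k + 1 + 1) : ℕ) : ℝ) * θ + 2 * θ := by
        push_cast; ring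
      have e2 : ((2 * (k + 1) : ℕ) : ℝ) * θ = ((2 * (k + 1 + 1) : ℕ) : ℝ) * θ - 2 * θ := by
        push_cast; ring
      have e3 : ((2 * (k + 2) : ℕ) : ℝ) * θ = ((2 * (k + 1) : ℕ) : ℝ) * θ + 2 * θ := by
        push_cast; ring
      have e4 : ((2 * k : ℕ) : ℝ) * θ = ((2 * (k + 1) : ℕ) : ℝ) * θ - 2 * θ := by
        push_cast; ring
      have s1 : sin (((2 * (k + 1 + 2) : ℕ) : ℝ) * θ) =
          2 * cos (2 * θ) * sin (((2 * (k + 1 + 1) : ℕ) : ℝ) * θ) -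
            sin (((2 * (k + 1) : ℕ) : ℝ) * θ) := by
        rw [e1, e2, sin_add, sin_sub]; ring
      have s2 : sin (((2 * (k + 2) : ℕ) : ℝ) * θ) =
          2 * cos (2 * θ) * sin (((2 * (k + 1) : ℕ) : ℝ) * θ) -
            sin (((2 * k : ℕ) : ℝ) * θ) := by
        rw [e3, e4, sin_add, sin_sub]; ring
      rw [s1, s2]
      push_cast
      module
  obtain ⟨k, rfl⟩ : ∃ k, m = k + 1 := ⟨m - 1, by omega⟩
  have hm0 : ((k + 1 : ℕ) : ℝ) ≠ 0 := by positivity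
  have hm3 : (3 : ℝ) ≤ ((k + 1 : ℕ) : ℝ) := by exact_mod_cast hm
  have h1 := key k
  have hmul : ((2 * (k + 1) : ℕ) : ℝ) * θ = 2 * π := by
    rw [hθ]; push_cast; field_simp
  have hmul' : ((2 * k : ℕ) : ℝ) * θ = 2 * π - 2 * θ := by
    rw [← hmul]; push_cast; ring
  rw [hmul, hmul', sin_two_pi, sin_two_pi_sub] at h1
  have hs : sin (2 * θ) ≠ 0 := by
    apply ne_of_gt
    apply sin_pos_of_pos_of_lt_pi
    · positivity
    · rw [hθ, mul_div_assoc', div_lt_iff₀ (by linarith)]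
      nlinarith [pi_pos]
  have h2 : ((sin (2 * θ) : ℝ) : ℂ) ≠ 0 := by exact_mod_cast hs
  have h3 : ((sin (2 * θ) : ℝ) : ℂ) • (X ^ (k + 1) * b) = ((sin (2 * θ) : ℝ) : ℂ) • b := by
    rw [h1]
    push_cast
    module
  exact smul_right_injective R h2 h3

end Pair

end alg

end Pool.Agent.TH538.AT
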