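import Mathlib

/-! The largest eigenvalue of an irreducible nonnegative symmetric matrix drops strictly on
coordinate subspaces. -/

set_option autoImplicit false
set_option linter.unusedSectionVars false
set_option linter.unusedVariables false

namespace Pool.Agent.TH538.AT

open Finset

section pf

variable {S : Type*} [Fintype S] [DecidableEq S]

/-- quadratic form -/
def qf (N : S → S → ℝ) (z : S → ℝ) : ℝ := ∑ i, ∑ j, N i j * z i * z j

/-- sum of squares -/
def nn (z : S → ℝ) : ℝ := ∑ i, z i ^ 2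

lemma qf_smul (N : S → S → ℝ) (c : ℝ) (z : S → ℝ) : qf N (c • z) = c ^ 2 * qf N z := by
  unfold qf
  rw [mul_sum]
  refine sum_congr rfl fun i _ => ?_
  rw [mul_sum]
  refine sum_congr rfl fun j _ => ?_
  simp only [Pi.smul_apply, smul_eq_mul]
  ring

lemma nn_smul (c : ℝ) (z : S → ℝ) : nn (c • z) = c ^ 2 * nn z := by
  unfold nn
  rw [mul_sum]
  refine sum_congr rfl fun i _ => ?_
  simp only [Pi.smul_apply, smul_eq_mul]
  ring

lemma nn_nonneg (z : S → ℝ) : 0 ≤ nn z := sum_nonneg fun i _ => sq_nonneg _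

lemma nn_eq_zero {z : S → ℝ} (h : nn z = 0) : z = 0 := by
  funext i
  have := (sum_eq_zero_iff_of_nonneg (fun i _ => sq_nonneg (z i))).mp h i (mem_univ i)
  simpa using this

lemma continuous_qf (N : S → S → ℝ) : Continuous (qf N) := by
  unfold qf
  fun_prop

lemma continuous_nn : Continuous (nn : (S → ℝ) → ℝ) := by
  unfold nn
  fun_prop

lemma isCompact_sphere (T : Set S) : IsCompact {z : S → ℝ | nn z = 1 ∧ ∀ i ∉ T, z i = 0} := by
  apply Metric.isCompact_of_isClosed_isBounded
  · apply IsClosed.inter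
    · exact isClosed_eq continuous_nn continuous_const
    · have : {z : S → ℝ | ∀ i ∉ T, z i = 0} = ⋂ i, ⋂ (_ : i ∉ T), {z | z i = 0} := by
        ext z; simp
      change IsClosed {z : S → ℝ | ∀ i ∉ T, z i = 0}
      rw [this]
      refine isClosed_iInter fun i => isClosed_iInter fun _ => ?_
      exact isClosed_eq (continuous_apply i) continuous_const
  · rw [Metric.isBounded_iff_subset_closedBall 0]
    refine ⟨1, fun z hz => ?_⟩
    rw [mem_closedBall_zero_iff, pi_norm_le_iff_of_nonneg zero_le_one]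
    intro i
    have h1 : z i ^ 2 ≤ nn z := single_le_sum (f := fun i => z i ^ 2) (fun i _ => sq_nonneg _)
      (mem_univ i)
    rw [hz.1] at h1
    rw [Real.norm_eq_abs]
    exact abs_le_one_iff_mul_self_le_one.mpr (by nlinarith)

lemma qf_abs_ge {N : S → S → ℝ} (hN : ∀ i j, 0 ≤ N i j) (z : S → ℝ) :
    qf N z ≤ qf N (fun i => |z i|) := by
  refine sum_le_sum fun i _ => sum_le_sum fun j _ => ?_
  rw [mul_assoc, mul_assoc, ← abs_mul]
  exact mul_le_mul_of_nonneg_left (le_abs_self _) (hN i j)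

lemma nn_abs (z : S → ℝ) : nn (fun i => |z i|) = nn z := by
  unfold nn
  simp only [sq_abs]

/-- a nonnegative maximizer on a coordinate subspace -/
lemma exists_max {N : S → S → ℝ} (hN : ∀ i j, 0 ≤ N i j) (T : Set S) (hT : T.Nonempty) :
    ∃ y : S → ℝ, nn y = 1 ∧ (∀ i ∉ T, y i = 0) ∧ (∀ i, 0 ≤ y i) ∧
      ∀ z : S → ℝ, (∀ i ∉ T, z i = 0) → qf N z ≤ qf N y * nn z := by
  obtain ⟨t, ht⟩ := hT
  have hne : {z : S → ℝ | nn z = 1 ∧ ∀ i ∉ T, z i = 0}.Nonempty := by
    refine ⟨Pi.single t 1, ?_, ?_⟩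
    · unfold nn
      rw [sum_eq_single t]
      · simp
      · intro i _ hi
        simp [Pi.single_eq_of_ne hi]
      · intro h; exact absurd (mem_univ t) h
    · intro i hi
      apply Pi.single_eq_of_ne
      rintro rfl
      exact hi ht
  obtain ⟨z₀, hz₀, hmax⟩ := (isCompact_sphere T).exists_isMaxOn hne (continuous_qf N).continuousOn
  refine ⟨fun i => |z₀ i|, ?_, ?_, fun i => abs_nonneg _, ?_⟩
  · rw [nn_abs]; exact hz₀.1
  · intro i hi
    show |z₀ i| = 0
    rw [hz₀.2 i hi, abs_zero]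
  · intro z hz
    by_cases h0 : nn z = 0
    · rw [nn_eq_zero h0]
      simp [qf, nn]
    · have hpos : 0 < nn z := lt_of_le_of_ne (nn_nonneg z) (Ne.symm h0)
      set c : ℝ := (Real.sqrt (nn z))⁻¹ with hc
      have hc2 : c ^ 2 = (nn z)⁻¹ := by
        rw [hc, inv_pow, Real.sq_sqrt hpos.le]
      have h1 : (c • z) ∈ {z : S → ℝ | nn z = 1 ∧ ∀ i ∉ T, z i = 0} := by
        refine ⟨?_, ?_⟩
        · rw [nn_smul, hc2, inv_mul_cancel₀ h0]
        · intro i hi
          rw [Pi.smul_apply, hz i hi, smul_zero]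
      have h2 : qf N (c • z) ≤ qf N z₀ := hmax h1
      rw [qf_smul, hc2] at h2
      have h3 := qf_abs_ge hN z₀
      have h4 : (nn z)⁻¹ * qf N z ≤ qf N (fun i => |z₀ i|) := h2.trans h3
      rwa [inv_mul_le_iff₀ hpos, mul_comm] at h4

lemma sum_single_mul (f : S → ℝ) (i : S) (t : ℝ) :
    ∑ j, f j * (Pi.single i t : S → ℝ) j = f i * t := by
  rw [sum_eq_single i]
  · simp
  · intro j _ hj
    rw [Pi.single_eq_of_ne hj, mul_zero]
  · intro h; exact absurd (mem_univ i) h

/-- a maximizer is an eigenvector -/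
lemma eigen {N : S → S → ℝ} (hs : ∀ i j, N i j = N j i) {lam : ℝ} {y : S → ℝ}
    (hy : nn y = 1) (hq : qf N y = lam) (hmax : ∀ z, qf N z ≤ lam * nn z) (i : S) :
    ∑ j, N i j * y j = lam * y i := by
  set a : ℝ := ∑ j, N i j * y j - lam * y i with ha
  have hexp : ∀ t : ℝ, qf N (y + (Pi.single i t : S → ℝ)) - lam * nn (y + (Pi.single i t : S → ℝ)) =
      2 * t * a + t ^ 2 * (N i i - lam) := by
    intro t
    have e1 : qf N (y + (Pi.single i t : S → ℝ)) = qf N y + 2 * t * (∑ j, N i j * y j) + t ^ 2 * N i i := by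
      unfold qf
      have h1 : ∀ k j, N k j * (y + (Pi.single i t : S → ℝ)) k * (y + (Pi.single i t : S → ℝ)) j =
          N k j * y k * y j + (N k j * y k) * (Pi.single i t : S → ℝ) j +
            (N k j * (y j + (Pi.single i t : S → ℝ) j)) * (Pi.single i t : S → ℝ) k := by
        intro k j
        simp only [Pi.add_apply]
        ring
      simp only [h1, sum_add_distrib]
      have h2 : ∀ k, ∑ j, (N k j * y k) * (Pi.single i t : S → ℝ) j = N k i * y k * t :=
        fun k => sum_single_mul (fun j => N k j * y k) i t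
      have h3 : ∑ k, ∑ j, (N k j * (y j + (Pi.single i t : S → ℝ) j)) *
          (Pi.single i t : S → ℝ) k = (∑ j, (N i j * (y j + (Pi.single i t : S → ℝ) j))) * t := by
        rw [← sum_single_mul (fun k => ∑ j, (N k j * (y j + (Pi.single i t : S → ℝ) j))) i t]
        refine sum_congr rfl fun k _ => ?_
        rw [sum_mul]
      rw [h3]
      simp only [h2, mul_add, sum_add_distrib]
      rw [sum_single_mul, ← sum_mul]
      have h4 : ∑ k, N k i * y k = ∑ j, N i j * y j := sum_congr rfl fun k _ => by rw [hs]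
      rw [h4]
      ring
    have e2 : nn (y + (Pi.single i t : S → ℝ)) = nn y + 2 * t * y i + t ^ 2 := by
      unfold nn
      have h1 : ∀ j, (y + (Pi.single i t : S → ℝ)) j ^ 2 = y j ^ 2 +
          (2 * y j + (Pi.single i t : S → ℝ) j) * (Pi.single i t : S → ℝ) j := by
        intro j
        simp only [Pi.add_apply]
        ring
      simp only [h1, sum_add_distrib]
      rw [sum_single_mul (fun j => 2 * y j + (Pi.single i t : S → ℝ) j)]
      simp only [Pi.single_eq_same]
      ring
    rw [e1, e2, hq, hy, ha]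
    ring
  have hle : ∀ t : ℝ, 2 * t * a + t ^ 2 * (N i i - lam) ≤ 0 := by
    intro t
    rw [← hexp]
    linarith [hmax (y + (Pi.single i t : S → ℝ))]
  have ha0 : a = 0 := by
    by_contra hne
    set b := N i i - lam with hb
    -- choose t small of the sign of a
    have h1 := hle (a / (|b| + 1))
    have hb1 : 0 < |b| + 1 := by positivity
    have ha2 : 0 < a ^ 2 := by positivity
    have h2 : 2 * (a / (|b| + 1)) * a + (a / (|b| + 1)) ^ 2 * b =
        a ^ 2 / (|b| + 1) ^ 2 * (2 * (|b| + 1) + b) := by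
      field_simp
    rw [h2] at h1
    have h3 : 0 < a ^ 2 / (|b| + 1) ^ 2 := by positivity
    have h4 : 0 < 2 * (|b| + 1) + b := by
      have := neg_abs_le b
      have := abs_nonneg b
      linarith
    nlinarith [mul_pos h3 h4]
  linarith

/-- positivity of a maximizer -/
lemma max_pos {N : S → S → ℝ} (hs : ∀ i j, N i j = N j i) (hN : ∀ i j, 0 ≤ N i j)
    (hirr : ∀ U : Set S, U.Nonempty → U ≠ Set.univ → ∃ i ∈ U, ∃ j ∉ U, 0 < N i j)
    {lam : ℝ} {y : S → ℝ} (hy : nn y = 1) (hy0 : ∀ i, 0 ≤ y i) (hq : qf N y = lam)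
    (hmax : ∀ z, qf N z ≤ lam * nn z) (i : S) : 0 < y i := by
  have heig := eigen hs hy hq hmax
  by_contra hi
  have hi0 : y i = 0 := le_antisymm (not_lt.mp hi) (hy0 i)
  have hU : {k | y k ≠ 0}.Nonempty := by
    by_contra hcon
    rw [Set.not_nonempty_iff_eq_empty] at hcon
    have : y = 0 := by
      funext k
      by_contra hk
      have : k ∈ ({k | y k ≠ 0} : Set S) := hk
      rw [hcon] at this
      exact this
    rw [this] at hy
    simp [nn] at hy
  have hU' : {k | y k ≠ 0} ≠ Set.univ := by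
    intro h
    have : i ∈ ({k | y k ≠ 0} : Set S) := by rw [h]; trivial
    exact this hi0
  obtain ⟨k, hk, j, hj, hkj⟩ := hirr _ hU hU'
  have hj0 : y j = 0 := by
    by_contra h
    exact hj h
  have h1 := heig j
  rw [hj0, mul_zero] at h1
  have h2 := (sum_eq_zero_iff_of_nonneg (fun l _ => mul_nonneg (hN j l) (hy0 l))).mp h1 k
    (mem_univ k)
  rcases mul_eq_zero.mp h2 with h3 | h3
  · rw [hs, h3] at hkj
    exact lt_irrefl _ hkj
  · exact hk h3

/-- **Perron-Frobenius gap.** -/
theorem gap [Nonempty S] {N : S → S → ℝ} (hs : ∀ i j, N i j = N j i) (hN : ∀ i j, 0 ≤ N i j)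
    (hirr : ∀ U : Set S, U.Nonempty → U ≠ Set.univ → ∃ i ∈ U, ∃ j ∉ U, 0 < N i j) :
    ∃ (lam mu : ℝ) (y : S → ℝ), nn y = 1 ∧ qf N y = lam ∧ mu < lam ∧
      ∀ (s : S) (z : S → ℝ), z s = 0 → qf N z ≤ mu * nn z := by
  obtain ⟨y, hy1, -, hy0, hmax⟩ := exists_max hN Set.univ Set.univ_nonempty
  have hmax' : ∀ z, qf N z ≤ qf N y * nn z := fun z => hmax z (by simp)
  have h1 : ∀ s : S, ∃ mu, mu < qf N y ∧ ∀ z : S → ℝ, z s = 0 → qf N z ≤ mu * nn z := by
    intro s
    by_cases hT : ({s}ᶜ : Set S).Nonempty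
    · obtain ⟨y', hy1', hys', hy0', hmaxs⟩ := exists_max hN ({s}ᶜ : Set S) hT
      have hle : qf N y' ≤ qf N y := by
        have := hmax' y'
        rwa [hy1', mul_one] at this
      refine ⟨qf N y', lt_of_le_of_ne hle ?_, ?_⟩
      · intro heq
        have h2 := max_pos hs hN hirr hy1' hy0' heq hmax' s
        rw [hys' s (by simp)] at h2
        exact lt_irrefl _ h2
      · intro z hz
        apply hmaxs z
        intro i hi
        have : i = s := by simpa using hi
        rw [this, hz]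
    · refine ⟨qf N y - 1, by linarith, ?_⟩
      intro z hz
      have hz0 : z = 0 := by
        funext i
        have : i = s := by
          by_contra hne
          exact hT ⟨i, by simpa using hne⟩
        rw [this, hz]; rfl
      rw [hz0]
      simp [qf, nn]
  choose mu hmu hmuz using h1
  obtain ⟨s₀, -, hs₀⟩ := exists_max_image (univ : Finset S) mu univ_nonempty
  refine ⟨qf N y, mu s₀, y, hy1, rfl, hmu s₀, ?_⟩
  intro s z hz
  refine (hmuz s z hz).trans ?_
  exact mul_le_mul_of_nonneg_right (hs₀ s (mem_univ s)) (nn_nonneg z)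

end pf

end Pool.Agent.TH538.AT
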