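import Mathlib
import Pool.Agent.TH538.AT.Alg
import Pool.Agent.TH538.AT.PF

/-! The reflection representation of the Hecke algebra at a unimodular parameter. -/

set_option autoImplicit false
set_option linter.unusedSectionVars false
set_option linter.unusedVariables false

namespace Pool.Agent.TH538.AT

open Pool.Agent.Helper741 Real Finset

variable {S : Type*}

/-- weights `2 cos (π / m)` -/
noncomputable def Nm [DecidableEq S] (M : CoxeterMatrix S) (i j : S) : ℝ :=
  if i = j then 0 else 2 * cos (π / (M i j : ℝ))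

section basic

variable [DecidableEq S] (M : CoxeterMatrix S)

lemma Nm_symm (i j : S) : Nm M i j = Nm M j i := by
  unfold Nm
  rw [M.symmetric i j]
  by_cases h : i = j
  · simp [h]
  · simp [h, Ne.symm h]

lemma Nm_self (i : S) : Nm M i i = 0 := by simp [Nm]

lemma Nm_ne {i j : S} (h : i ≠ j) : Nm M i j = 2 * cos (π / (M i j : ℝ)) := by simp [Nm, h]

lemma Nm_nonneg (i j : S) : 0 ≤ Nm M i j := by
  unfold Nm
  split_ifs with h
  · exact le_rfl
  · have hm : M i j = 0 ∨ 2 ≤ M i j := by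
      have := M.off_diagonal i j h
      omega
    rcases hm with h0 | h2
    · rw [h0]; simp
    · have h2' : (2 : ℝ) ≤ (M i j : ℝ) := by exact_mod_cast h2
      have hle : π / (M i j : ℝ) ≤ π / 2 := div_le_div_of_nonneg_left pi_pos.le two_pos h2'
      have : 0 ≤ cos (π / (M i j : ℝ)) := by
        apply cos_nonneg_of_neg_pi_div_two_le_of_le _ hle
        have : 0 ≤ π / (M i j : ℝ) := by positivity
        linarith [pi_pos]
      linarith

lemma Nm_pos {i j : S} (h : i ≠ j) (h2 : M i j ≠ 2) : 0 < Nm M i j := by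
  rw [Nm_ne M h]
  have hm : M i j = 0 ∨ 3 ≤ M i j := by
    have := M.off_diagonal i j h
    omega
  rcases hm with h0 | h3
  · rw [h0]; simp
  · have h3' : (3 : ℝ) ≤ (M i j : ℝ) := by exact_mod_cast h3
    have hlt : π / (M i j : ℝ) < π / 2 :=
      div_lt_div_of_pos_left pi_pos two_pos (by linarith)
    have : 0 < cos (π / (M i j : ℝ)) := by
      apply cos_pos_of_mem_Ioo
      refine ⟨?_, hlt⟩
      have : 0 ≤ π / (M i j : ℝ) := by positivity
      linarith [pi_pos]
    linarith

end basic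

section rep

variable [Fintype S] [DecidableEq S] (M : CoxeterMatrix S) (φ : ℝ)

/-- `u = e^{i φ}` -/
noncomputable def uu (φ : ℝ) : ℂ := Complex.exp (φ * Complex.I)

lemma uu_ne : uu φ ≠ 0 := Complex.exp_ne_zero _

lemma norm_uu : ‖uu φ‖ = 1 := Complex.norm_exp_ofReal_mul_I φ

lemma conj_uu : (starRingEnd ℂ) (uu φ) = (uu φ)⁻¹ := by
  have h : uu φ * (starRingEnd ℂ) (uu φ) = 1 := by
    rw [Complex.mul_conj, Complex.normSq_eq_norm_sq, norm_uu]
    simp
  exact eq_inv_of_mul_eq_one_right h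

lemma uu_add : uu φ + (uu φ)⁻¹ = ((2 * cos φ : ℝ) : ℂ) := by
  unfold uu
  rw [← Complex.exp_neg, Complex.ofReal_mul, Complex.ofReal_cos, Complex.cos]
  push_cast
  ring_nf

lemma uu_pow_re (k : ℕ) : ((uu φ) ^ k).re = cos (k * φ) := by
  unfold uu
  rw [← Complex.exp_nat_mul, show (k : ℂ) * (φ * Complex.I) = ((k * φ : ℝ) : ℂ) * Complex.I by
    push_cast; ring, Complex.exp_ofReal_mul_I_re]

/-- basis vectors -/
abbrev ec (i : S) : S → ℂ := Pi.single i 1

/-- the form, `B(e_i, ·)` -/
noncomputable def beta (i : S) : Module.Dual ℂ (S → ℂ) :=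
  ((2 * cos φ : ℝ) : ℂ) • LinearMap.proj i - ∑ j, ((Nm M i j : ℝ) : ℂ) • LinearMap.proj j

lemma beta_apply (i : S) (v : S → ℂ) :
    beta M φ i v = ((2 * cos φ : ℝ) : ℂ) * v i - ∑ j, ((Nm M i j : ℝ) : ℂ) * v j := by
  simp [beta, LinearMap.sum_apply]

lemma beta_self (i : S) : beta M φ i (ec i) = ((2 * cos φ : ℝ) : ℂ) := by
  rw [beta_apply, Finset.sum_eq_single i]
  · simp [Nm_self]
  · intro j _ hj
    simp [ec, Pi.single_eq_of_ne hj]
  · intro h; exact absurd (mem_univ i) h

lemma beta_ne {i j : S} (h : i ≠ j) : beta M φ i (ec j) = - ((Nm M i j : ℝ) : ℂ) := by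
  rw [beta_apply, Finset.sum_eq_single j]
  · simp [ec, Pi.single_eq_of_ne h]
  · intro k _ hk
    simp [ec, Pi.single_eq_of_ne hk]
  · intro h; exact absurd (mem_univ j) h

/-- rank one operators -/
noncomputable def bop (i : S) : Module.End ℂ (S → ℂ) := (beta M φ i).smulRight (ec i)

lemma bop_apply (i : S) (v : S → ℂ) : bop M φ i v = beta M φ i v • ec i := rfl

lemma bop_sq (i : S) : bop M φ i * bop M φ i = ((2 * cos φ : ℝ) : ℂ) • bop M φ i := by
  apply LinearMap.ext
  intro v
  rw [Module.End.mul_apply, bop_apply, bop_apply, map_smul, beta_self, LinearMap.smul_apply,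
    bop_apply, smul_eq_mul, smul_smul, mul_comm]

lemma bop_bop (i j : S) (h : i ≠ j) (v : S → ℂ) :
    bop M φ i (bop M φ j v) = (- ((Nm M i j : ℝ) : ℂ) * beta M φ j v) • ec i := by
  rw [bop_apply, bop_apply, map_smul, beta_ne M φ h, smul_eq_mul, mul_comm]

lemma bop_pair {i j : S} (h : i ≠ j) :
    Pair (uu φ) ((2 * cos φ : ℝ) : ℂ) ((Nm M i j : ℝ) : ℂ) (bop M φ i) (bop M φ j) where
  hu := uu_ne φ
  hx := (uu_add φ).symm
  h11 := bop_sq M φ i
  h22 := bop_sq M φ j
  h121 := by
    apply LinearMap.ext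
    intro v
    rw [mul_assoc, Module.End.mul_apply, Module.End.mul_apply, bop_bop M φ j i h.symm, map_smul,
      bop_apply, beta_ne M φ h, LinearMap.smul_apply, bop_apply, smul_smul, smul_smul,
      Nm_symm M j i]
    congr 1
    ring
  h212 := by
    apply LinearMap.ext
    intro v
    rw [mul_assoc, Module.End.mul_apply, Module.End.mul_apply, bop_bop M φ i j h, map_smul,
      bop_apply, beta_ne M φ h.symm, LinearMap.smul_apply, bop_apply, smul_smul, smul_smul,
      Nm_symm M j i]
    congr 1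
    ring

/-- the operators of the representation -/
noncomputable def T (i : S) : Module.End ℂ (S → ℂ) := uu φ • (1 : Module.End ℂ (S → ℂ)) - bop M φ i

lemma T_apply (i : S) (v : S → ℂ) : T M φ i v = uu φ • v - beta M φ i v • ec i := rfl

lemma T_mul_inv (i : S) :
    T M φ i * ((uu φ)⁻¹ • (1 : Module.End ℂ (S → ℂ)) - bop M φ i) = 1 := by
  unfold T
  rw [sub_mul, mul_sub, mul_sub, bop_sq, ← uu_add, smul_mul_smul_comm, one_mul,
    smul_mul_assoc, one_mul, mul_smul_comm, mul_one, mul_inv_cancel₀ (uu_ne φ)]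
  module

lemma T_inv_mul (i : S) :
    ((uu φ)⁻¹ • (1 : Module.End ℂ (S → ℂ)) - bop M φ i) * T M φ i = 1 := by
  unfold T
  rw [sub_mul, mul_sub, mul_sub, bop_sq, ← uu_add, smul_mul_smul_comm, one_mul,
    smul_mul_assoc, one_mul, mul_smul_comm, mul_one, inv_mul_cancel₀ (uu_ne φ)]
  module

/-- as units -/
noncomputable def TU (i : S) : (Module.End ℂ (S → ℂ))ˣ where
  val := T M φ i
  inv := (uu φ)⁻¹ • (1 : Module.End ℂ (S → ℂ)) - bop M φ i
  val_inv := T_mul_inv M φ i
  inv_val := T_inv_mul M φ i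

lemma T_braid (i j : S) : alt (T M φ i) (T M φ j) (M i j) = alt (T M φ j) (T M φ i) (M i j) := by
  by_cases hij : i = j
  · subst hij; rfl
  rcases Nat.lt_or_ge (M i j) 3 with h3 | h3
  · have hm : M i j = 0 ∨ M i j = 2 := by
      have := M.off_diagonal i j hij
      omega
    rcases hm with h0 | h2
    · rw [h0]; simp
    · rw [h2, alt_two, alt_two]
      have hN : Nm M i j = 0 := by
        rw [Nm_ne M hij, h2]
        simp
      have h1 : bop M φ i * bop M φ j = 0 := by
        apply LinearMap.ext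
        intro v
        rw [Module.End.mul_apply, bop_bop M φ i j hij, hN]
        simp
      have h1' : bop M φ j * bop M φ i = 0 := by
        apply LinearMap.ext
        intro v
        rw [Module.End.mul_apply, bop_bop M φ j i (Ne.symm hij), Nm_symm, hN]
        simp
      unfold T
      rw [sub_mul, mul_sub, mul_sub, sub_mul, mul_sub, mul_sub, h1, h1']
      simp only [smul_mul_assoc, mul_smul_comm, one_mul, mul_one]
      module
  · have h := bop_pair M φ hij
    rw [Nm_ne M hij] at h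
    exact h.braid (M i j) h3

lemma TU_braid (i j : S) :
    alt (TU M φ i) (TU M φ j) (M i j) = alt (TU M φ j) (TU M φ i) (M i j) := by
  apply Units.ext
  have h1 := map_alt (Units.coeHom (Module.End ℂ (S → ℂ))) (TU M φ i) (TU M φ j) (M i j)
  have h2 := map_alt (Units.coeHom (Module.End ℂ (S → ℂ))) (TU M φ j) (TU M φ i) (M i j)
  simp only [Units.coeHom_apply] at h1 h2
  rw [h1, h2]
  exact T_braid M φ i j

/-- the representation -/
noncomputable def rho : Artin M →* (Module.End ℂ (S → ℂ))ˣ := Artin.lift (TU M φ) (TU_braid M φ)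

/-- the action -/
noncomputable def act (g : Artin M) : Module.End ℂ (S → ℂ) :=
  ((rho M φ g : (Module.End ℂ (S → ℂ))ˣ) : Module.End ℂ (S → ℂ))

@[simp] lemma act_gen (i : S) : act M φ (Artin.gen M i) = T M φ i := by
  unfold act rho
  rw [Artin.lift_gen]
  rfl

@[simp] lemma act_one : act M φ 1 = 1 := by
  unfold act
  rw [map_one]; rfl

@[simp] lemma act_mul (g h : Artin M) : act M φ (g * h) = act M φ g * act M φ h := by
  unfold act
  rw [map_mul]; rfl

lemma act_mul_apply (g h : Artin M) (v : S → ℂ) :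
    act M φ (g * h) v = act M φ g (act M φ h v) := by
  rw [act_mul]; rfl

lemma act_inv_apply (g : Artin M) (v : S → ℂ) : act M φ g⁻¹ (act M φ g v) = v := by
  rw [← act_mul_apply, inv_mul_cancel, act_one]; rfl

lemma act_apply_inv (g : Artin M) (v : S → ℂ) : act M φ g (act M φ g⁻¹ v) = v := by
  rw [← act_mul_apply, mul_inv_cancel, act_one]; rfl

/-- the Hermitian form -/
noncomputable def H (v w : S → ℂ) : ℂ := ∑ i, (starRingEnd ℂ) (v i) * beta M φ i w

lemma H_add_right (v w w' : S → ℂ) : H M φ v (w + w') = H M φ v w + H M φ v w' := by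
  unfold H
  rw [← sum_add_distrib]
  exact sum_congr rfl fun i _ => by rw [map_add, mul_add]

lemma H_sub_right (v w w' : S → ℂ) : H M φ v (w - w') = H M φ v w - H M φ v w' := by
  unfold H
  rw [← sum_sub_distrib]
  exact sum_congr rfl fun i _ => by rw [map_sub, mul_sub]

lemma H_smul_right (c : ℂ) (v w : S → ℂ) : H M φ v (c • w) = c * H M φ v w := by
  unfold H
  rw [mul_sum]
  exact sum_congr rfl fun i _ => by rw [map_smul, smul_eq_mul]; ring

lemma H_expand (v w : S → ℂ) : H M φ v w = ((2 * cos φ : ℝ) : ℂ) * ∑ i, (starRingEnd ℂ) (v i) * w i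
    - ∑ i, ∑ j, ((Nm M i j : ℝ) : ℂ) * ((starRingEnd ℂ) (v i) * w j) := by
  unfold H
  rw [mul_sum, ← sum_sub_distrib]
  refine sum_congr rfl fun i _ => ?_
  rw [beta_apply, mul_sub, mul_sum]
  congr 1
  · ring
  · exact sum_congr rfl fun j _ => by ring

lemma H_conj (v w : S → ℂ) : (starRingEnd ℂ) (H M φ v w) = H M φ w v := by
  rw [H_expand, H_expand, map_sub, map_mul, map_sum, map_sum, Complex.conj_ofReal]
  congr 1
  · congr 1
    exact sum_congr rfl fun i _ => by rw [map_mul, Complex.conj_conj, mul_comm]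
  · rw [sum_comm]
    simp only [map_sum, map_mul, Complex.conj_ofReal, Complex.conj_conj]
    refine sum_congr rfl fun i _ => sum_congr rfl fun j _ => ?_
    rw [Nm_symm M j i]
    ring

lemma H_add_left (v v' w : S → ℂ) : H M φ (v + v') w = H M φ v w + H M φ v' w := by
  rw [← H_conj, H_add_right, map_add, H_conj, H_conj]

lemma H_sub_left (v v' w : S → ℂ) : H M φ (v - v') w = H M φ v w - H M φ v' w := by
  rw [← H_conj, H_sub_right, map_sub, H_conj, H_conj]

lemma H_smul_left (c : ℂ) (v w : S → ℂ) :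
    H M φ (c • v) w = (starRingEnd ℂ) c * H M φ v w := by
  rw [← H_conj, H_smul_right, map_mul, H_conj]

lemma H_ec_left (i : S) (w : S → ℂ) : H M φ (ec i) w = beta M φ i w := by
  unfold H
  rw [Finset.sum_eq_single i]
  · simp
  · intro j _ hj
    simp [ec, Pi.single_eq_of_ne hj]
  · intro h; exact absurd (mem_univ i) h

lemma H_ec_right (i : S) (v : S → ℂ) : H M φ v (ec i) = (starRingEnd ℂ) (beta M φ i v) := by
  rw [← H_conj, H_ec_left]

lemma H_T (i : S) (v w : S → ℂ) : H M φ (T M φ i v) (T M φ i w) = H M φ v w := by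
  have hu : (starRingEnd ℂ) (uu φ) * uu φ = 1 := by rw [conj_uu, inv_mul_cancel₀ (uu_ne φ)]
  rw [T_apply, T_apply, H_sub_left, H_sub_right, H_sub_right, H_smul_left, H_smul_left,
    H_smul_left, H_smul_left, H_smul_right, H_smul_right, H_smul_right, H_smul_right, H_ec_left,
    H_ec_left, H_ec_right, beta_self, ← uu_add, ← conj_uu]
  linear_combination H M φ v w * hu

lemma H_act (g : Artin M) (v w : S → ℂ) : H M φ (act M φ g v) (act M φ g w) = H M φ v w := by
  induction g using Artin.induction generalizing v w with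
  | one => rw [act_one]; rfl
  | gen i => rw [act_gen, H_T]
  | mul x y hx hy => rw [act_mul_apply, act_mul_apply, hx, hy]
  | inv x hx => rw [← hx, act_apply_inv, act_apply_inv]

/-- real part of the norm in terms of the real quadratic form -/
lemma H_self_re (z : S → ℂ) : (H M φ z z).re =
    (2 * cos φ * nn (fun i => (z i).re) - qf (Nm M) (fun i => (z i).re)) +
    (2 * cos φ * nn (fun i => (z i).im) - qf (Nm M) (fun i => (z i).im)) := by
  rw [H_expand, Complex.sub_re, Complex.re_ofReal_mul, Complex.re_sum, Complex.re_sum]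
  simp only [Complex.re_sum, Complex.re_ofReal_mul]
  simp only [Complex.mul_re, Complex.conj_re, Complex.conj_im]
  unfold nn qf
  have h1 : ∑ i, ((z i).re * (z i).re - -(z i).im * (z i).im) =
      ∑ i, (z i).re ^ 2 + ∑ i, (z i).im ^ 2 := by
    rw [← sum_add_distrib]
    exact sum_congr rfl fun i _ => by ring
  have h2 : ∑ i, ∑ j, Nm M i j * ((z i).re * (z j).re - -(z i).im * (z j).im) =
      ∑ i, ∑ j, Nm M i j * (z i).re * (z j).re + ∑ i, ∑ j, Nm M i j * (z i).im * (z j).im := by
    rw [← sum_add_distrib]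
    refine sum_congr rfl fun i _ => ?_
    rw [← sum_add_distrib]
    exact sum_congr rfl fun j _ => by ring
  rw [h1, h2]
  ring

lemma norm_sq_le (z : S → ℂ) : ‖z‖ ^ 2 ≤ nn (fun i => (z i).re) + nn (fun i => (z i).im) := by
  have h0 : 0 ≤ nn (fun i => (z i).re) + nn (fun i => (z i).im) :=
    add_nonneg (nn_nonneg _) (nn_nonneg _)
  have h1 : ‖z‖ ≤ Real.sqrt (nn (fun i => (z i).re) + nn (fun i => (z i).im)) := by
    rw [pi_norm_le_iff_of_nonneg (Real.sqrt_nonneg _)]
    intro i
    apply Real.le_sqrt_of_sq_le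
    rw [← Complex.normSq_eq_norm_sq, Complex.normSq_apply]
    have h2 : (z i).re ^ 2 ≤ nn (fun i => (z i).re) :=
      single_le_sum (f := fun i => (z i).re ^ 2) (fun i _ => sq_nonneg _) (mem_univ i)
    have h3 : (z i).im ^ 2 ≤ nn (fun i => (z i).im) :=
      single_le_sum (f := fun i => (z i).im ^ 2) (fun i _ => sq_nonneg _) (mem_univ i)
    nlinarith
  calc ‖z‖ ^ 2 ≤ (Real.sqrt (nn (fun i => (z i).re) + nn (fun i => (z i).im))) ^ 2 := by
        gcongr
    _ = _ := Real.sq_sqrt h0

/-- positivity on coordinate hyperplanes -/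
lemma H_pos {mu : ℝ} (hmu : ∀ (s : S) (z : S → ℝ), z s = 0 → qf (Nm M) z ≤ mu * nn z)
    (hφ : mu ≤ 2 * cos φ) (s : S) (z : S → ℂ) (hz : z s = 0) :
    (2 * cos φ - mu) * ‖z‖ ^ 2 ≤ (H M φ z z).re := by
  rw [H_self_re]
  have h1 := hmu s (fun i => (z i).re) (by simp [hz])
  have h2 := hmu s (fun i => (z i).im) (by simp [hz])
  have h3 := norm_sq_le z
  have h4 : 0 ≤ 2 * cos φ - mu := by linarith
  nlinarith [mul_le_mul_of_nonneg_left h3 h4]

/-- boundedness of the form -/
lemma H_bound : ∃ L : ℝ, 0 ≤ L ∧ ∀ v w : S → ℂ, ‖H M φ v w‖ ≤ L * ‖v‖ * ‖w‖ := by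
  refine ⟨∑ i, (|2 * cos φ| + ∑ j, |Nm M i j|), sum_nonneg fun i _ => add_nonneg (abs_nonneg _)
    (sum_nonneg fun j _ => abs_nonneg _), ?_⟩
  intro v w
  unfold H
  refine (norm_sum_le _ _).trans ?_
  rw [sum_mul, sum_mul]
  refine sum_le_sum fun i _ => ?_
  rw [norm_mul, RCLike.norm_conj]
  have h1 : ‖beta M φ i w‖ ≤ (|2 * cos φ| + ∑ j, |Nm M i j|) * ‖w‖ := by
    rw [beta_apply]
    refine (norm_sub_le _ _).trans ?_
    rw [add_mul]
    apply add_le_add
    · rw [norm_mul, Complex.norm_real, Real.norm_eq_abs]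
      exact mul_le_mul_of_nonneg_left (norm_le_pi_norm w i) (abs_nonneg _)
    · refine (norm_sum_le _ _).trans ?_
      rw [sum_mul]
      refine sum_le_sum fun j _ => ?_
      rw [norm_mul, Complex.norm_real, Real.norm_eq_abs]
      exact mul_le_mul_of_nonneg_left (norm_le_pi_norm w j) (abs_nonneg _)
  calc ‖v i‖ * ‖beta M φ i w‖ ≤ ‖v‖ * ((|2 * cos φ| + ∑ j, |Nm M i j|) * ‖w‖) := by
        apply mul_le_mul (norm_le_pi_norm v i) h1 (norm_nonneg _) (norm_nonneg _)
    _ = _ := by ring

end rep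

end Pool.Agent.TH538.AT
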