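import Mathlib
import Pool.Agent.TH538.AT.Rep
import Pool.Agent.TH538.AT.Defs

/-! Bounded and unbounded subsets of the image of the representation. -/

set_option autoImplicit false
set_option linter.unusedSectionVars false
set_option linter.unusedVariables false

namespace Pool.Agent.TH538.AT

open Pool.Agent.Helper741 Real Finset

variable {S : Type*} [Fintype S] [DecidableEq S] (M : CoxeterMatrix S)

section fin

/-- coroot in terms of the weights -/
lemma coroot_eq (i : S) (v : S → ℝ) : coroot M i v = 2 * v i - ∑ j, Nm M i j * v j := by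
  have h : coroot M i v = ∑ j, (-2 * cc M i j) * v j := by
    simp [coroot, LinearMap.sum_apply]
  rw [h, ← add_sum_erase _ _ (mem_univ i), ← add_sum_erase _ (fun j => Nm M i j * v j) (mem_univ i),
    cc_self, Nm_self, zero_mul, zero_add, sub_eq_add_neg, ← sum_neg_distrib]
  congr 1
  · ring
  · refine sum_congr rfl fun j hj => ?_
    rw [Nm_ne M (ne_of_mem_erase hj).symm]
    unfold cc
    ring

/-- averaged form -/
noncomputable def Qf [Fintype M.Group] (v w : S → ℝ) : ℝ :=
  ∑ g : M.Group, ∑ k, geo M.toCoxeterSystem g v k * geo M.toCoxeterSystem g w k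

variable [Fintype M.Group]

lemma Qf_symm (v w : S → ℝ) : Qf M v w = Qf M w v :=
  sum_congr rfl fun g _ => sum_congr rfl fun k _ => mul_comm _ _

lemma Qf_sub (v v' w : S → ℝ) : Qf M (v - v') w = Qf M v w - Qf M v' w := by
  unfold Qf
  rw [← sum_sub_distrib]
  refine sum_congr rfl fun g _ => ?_
  rw [← sum_sub_distrib]
  refine sum_congr rfl fun k _ => ?_
  rw [map_sub, Pi.sub_apply, sub_mul]

lemma Qf_smul (c : ℝ) (v w : S → ℝ) : Qf M (c • v) w = c * Qf M v w := by
  unfold Qf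
  rw [mul_sum]
  refine sum_congr rfl fun g _ => ?_
  rw [mul_sum]
  refine sum_congr rfl fun k _ => ?_
  rw [map_smul, Pi.smul_apply, smul_eq_mul, mul_assoc]

lemma Qf_neg_right (v w : S → ℝ) : Qf M v (-w) = - Qf M v w := by
  unfold Qf
  rw [← sum_neg_distrib]
  refine sum_congr rfl fun g _ => ?_
  rw [← sum_neg_distrib]
  refine sum_congr rfl fun k _ => ?_
  rw [map_neg, Pi.neg_apply, mul_neg]

lemma Qf_sum (v w : S → ℝ) : Qf M v w = ∑ i, v i * Qf M (ee i) w := by
  have hv : v = ∑ i, v i • ee i := by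
    ext j
    simp [ee, Finset.sum_apply, Pi.single_apply]
  unfold Qf
  conv_lhs => rw [hv]
  simp only [map_sum, map_smul, Finset.sum_apply, Pi.smul_apply, smul_eq_mul, sum_mul, mul_sum]
  rw [show (∑ g : M.Group, ∑ k, ∑ i, v i * (geo M.toCoxeterSystem g) (ee i) k *
      (geo M.toCoxeterSystem g) w k) = ∑ g : M.Group, ∑ i, ∑ k, v i *
      (geo M.toCoxeterSystem g) (ee i) k * (geo M.toCoxeterSystem g) w k from
    sum_congr rfl fun g _ => sum_comm, sum_comm]
  refine sum_congr rfl fun i _ => sum_congr rfl fun g _ => sum_congr rfl fun k _ => ?_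
  ring

lemma Qf_inv (i : S) (v w : S → ℝ) : Qf M (sg M i v) (sg M i w) = Qf M v w := by
  unfold Qf
  rw [← Equiv.sum_comp (Equiv.mulRight (M.toCoxeterSystem.simple i))
    (fun g => ∑ k, geo M.toCoxeterSystem g v k * geo M.toCoxeterSystem g w k)]
  refine sum_congr rfl fun g _ => sum_congr rfl fun k _ => ?_
  rw [Equiv.coe_mulRight, map_mul, Module.End.mul_apply, Module.End.mul_apply, geo_simple]

lemma Qf_ee (i : S) (v : S → ℝ) : 2 * Qf M v (ee i) = coroot M i v * Qf M (ee i) (ee i) := by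
  have h := Qf_inv M i v (ee i)
  rw [sg_ee_self, Qf_neg_right, sg_apply, Qf_sub, Qf_smul] at h
  linarith

lemma Qf_pos (v : S → ℝ) (hv : v ≠ 0) : 0 < Qf M v v := by
  unfold Qf
  have h1 : ∀ g : M.Group, 0 ≤ ∑ k, geo M.toCoxeterSystem g v k * geo M.toCoxeterSystem g v k :=
    fun g => sum_nonneg fun k _ => mul_self_nonneg _
  refine sum_pos' (fun g _ => h1 g) ⟨1, mem_univ _, ?_⟩
  simp only [map_one, Module.End.one_apply]
  obtain ⟨k, hk⟩ := Function.ne_iff.mp hv
  refine sum_pos' (fun k _ => mul_self_nonneg _) ⟨k, mem_univ _, ?_⟩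
  exact mul_self_pos.mpr hk

/-- finite irreducible Coxeter group: `2 I - N` is positive definite -/
theorem qf_lt (hirr : ∀ U : Set S, U.Nonempty → U ≠ Set.univ → ∃ i ∈ U, ∃ j ∉ U, 0 < Nm M i j)
    (v : S → ℝ) (hv : v ≠ 0) : qf (Nm M) v < 2 * nn v := by
  obtain ⟨i₀, -⟩ := Function.ne_iff.mp hv
  have hq : ∀ i, 0 < Qf M (ee i) (ee i) := fun i => Qf_pos M _ (by
    intro h
    have := congrFun h i
    simp [ee] at this)
  have hcor : ∀ i j, i ≠ j → coroot M i (ee j) = - Nm M i j := by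
    intro i j hij
    rw [coroot_ee, Nm_ne M hij]
    unfold cc
    ring
  have hconst : ∀ i j, 0 < Nm M i j → Qf M (ee i) (ee i) = Qf M (ee j) (ee j) := by
    intro i j hN
    have hij : i ≠ j := by
      rintro rfl
      rw [Nm_self] at hN
      exact lt_irrefl _ hN
    have h1 := Qf_ee M i (ee j)
    have h2 := Qf_ee M j (ee i)
    rw [hcor i j hij] at h1
    rw [hcor j i hij.symm, Nm_symm M j i, Qf_symm] at h2
    have h3 : Nm M i j * (Qf M (ee i) (ee i) - Qf M (ee j) (ee j)) = 0 := by linarith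
    rcases mul_eq_zero.mp h3 with h4 | h4
    · linarith
    · linarith
  have hall : ∀ i, Qf M (ee i) (ee i) = Qf M (ee i₀) (ee i₀) := by
    by_contra hcon
    push Not at hcon
    obtain ⟨i₁, hi₁⟩ := hcon
    obtain ⟨i, hi, j, hj, hN⟩ := hirr {i | Qf M (ee i) (ee i) = Qf M (ee i₀) (ee i₀)} ⟨i₀, rfl⟩ (by
      intro h
      have : i₁ ∈ ({i | Qf M (ee i) (ee i) = Qf M (ee i₀) (ee i₀)} : Set S) := by
        rw [h]; trivial
      exact hi₁ this)
    apply hj
    show Qf M (ee j) (ee j) = Qf M (ee i₀) (ee i₀)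
    rw [← hconst i j hN]
    exact hi
  have h1 := Qf_pos M v hv
  rw [Qf_sum] at h1
  have h2 : ∑ i, v i * Qf M (ee i) v = (Qf M (ee i₀) (ee i₀) / 2) * (2 * nn v - qf (Nm M) v) := by
    unfold nn qf
    rw [mul_sub, mul_sum, mul_sum, mul_sum, ← sum_sub_distrib]
    refine sum_congr rfl fun i _ => ?_
    have h3 := Qf_ee M i v
    rw [Qf_symm, hall i, coroot_eq] at h3
    have h4 : ∑ j, Nm M i j * v i * v j = v i * ∑ j, Nm M i j * v j := by
      rw [mul_sum]
      exact sum_congr rfl fun j _ => by ring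
    rw [h4]
    linear_combination (v i / 2) * h3
  rw [h2] at h1
  have h3 := hq i₀
  have h4 : 0 < 2 * nn v - qf (Nm M) v := by
    by_contra hcon
    push Not at hcon
    have : (Qf M (ee i₀) (ee i₀) / 2) * (2 * nn v - qf (Nm M) v) ≤ 0 :=
      mul_nonpos_of_nonneg_of_nonpos (by linarith) hcon
    linarith
  linarith

end fin

section bounded

variable (φ : ℝ)

lemma coord_parabolic {T' : Set S} {s : S} (hs : s ∉ T') {g : Artin M} (hg : g ∈ parabolic M T') :
    ∃ c : ℂ, ‖c‖ = 1 ∧ ∀ v : S → ℂ, act M φ g v s = c * v s := by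
  unfold parabolic at hg
  induction hg using Subgroup.closure_induction with
  | mem x hx =>
    obtain ⟨i, hi, rfl⟩ := hx
    refine ⟨uu φ, norm_uu φ, fun v => ?_⟩
    have hne : s ≠ i := by rintro rfl; exact hs hi
    rw [act_gen, T_apply, Pi.sub_apply, Pi.smul_apply, Pi.smul_apply, ec, Pi.single_eq_of_ne hne]
    simp
  | one => exact ⟨1, norm_one, fun v => by rw [act_one, one_mul]; rfl⟩
  | mul x y _ _ hx hy =>
    obtain ⟨c, hc, hcv⟩ := hx
    obtain ⟨d, hd, hdv⟩ := hy
    refine ⟨c * d, by rw [norm_mul, hc, hd, one_mul], fun v => ?_⟩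
    rw [act_mul_apply, hcv, hdv, mul_assoc]
  | inv x _ hx =>
    obtain ⟨c, hc, hcv⟩ := hx
    have hc0 : c ≠ 0 := by
      intro h; rw [h, norm_zero] at hc; exact zero_ne_one hc
    refine ⟨c⁻¹, by rw [norm_inv, hc, inv_one], fun v => ?_⟩
    have := hcv (act M φ x⁻¹ v)
    rw [act_apply_inv] at this
    rw [this, ← mul_assoc, inv_mul_cancel₀ hc0, one_mul]

/-- parabolic subgroups act boundedly -/
theorem parabolic_bound {mu : ℝ}
    (hmu : ∀ (s : S) (z : S → ℝ), z s = 0 → qf (Nm M) z ≤ mu * nn z) (hφ : mu < 2 * cos φ) :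
    ∃ K : ℝ, 1 ≤ K ∧ ∀ T' : Set S, T' ≠ Set.univ → ∀ g ∈ parabolic M T', ∀ v : S → ℂ,
      ‖act M φ g v‖ ≤ K * ‖v‖ := by
  obtain ⟨L, hL0, hL⟩ := H_bound M φ
  set κ := 2 * cos φ - mu with hκ
  have hκ0 : 0 < κ := by rw [hκ]; linarith
  refine ⟨1 + 2 * L / κ, by have : 0 ≤ 2 * L / κ := by positivity
                            linarith, ?_⟩
  intro T' hT' g hg v
  obtain ⟨s, hs⟩ : ∃ s, s ∉ T' := by
    by_contra hcon
    push Not at hcon
    exact hT' (Set.eq_univ_of_forall hcon)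
  obtain ⟨c, hc, hcv⟩ := coord_parabolic M φ hs hg
  set z := act M φ g v - c • v with hz
  have hzs : z s = 0 := by
    rw [hz, Pi.sub_apply, hcv, Pi.smul_apply, smul_eq_mul, sub_self]
  have h1 := H_pos M φ hmu hφ.le s z hzs
  have hcc : (starRingEnd ℂ) c * c = 1 := by
    rw [mul_comm, Complex.mul_conj, Complex.normSq_eq_norm_sq, hc]
    simp
  have h2 : H M φ z z = -((starRingEnd ℂ) c * H M φ v z + c * H M φ z v) := by
    have e := H_act M φ g v v
    have e2 : act M φ g v = c • v + z := by rw [hz]; abel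
    rw [e2, H_add_left, H_add_right, H_add_right, H_smul_left, H_smul_left, H_smul_right,
      H_smul_right] at e
    linear_combination e - H M φ v v * hcc
  have h3 : ‖H M φ z z‖ ≤ 2 * L * ‖v‖ * ‖z‖ := by
    rw [h2, norm_neg]
    refine (norm_add_le _ _).trans ?_
    rw [norm_mul, norm_mul, RCLike.norm_conj, hc, one_mul, one_mul]
    have := hL v z
    have := hL z v
    nlinarith
  have h4 : κ * ‖z‖ ^ 2 ≤ 2 * L * ‖v‖ * ‖z‖ := h1.trans ((Complex.re_le_norm _).trans h3)
  have h5 : ‖z‖ ≤ 2 * L / κ * ‖v‖ := by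
    by_cases hz0 : ‖z‖ = 0
    · rw [hz0]; positivity
    · have hzp : 0 < ‖z‖ := lt_of_le_of_ne (norm_nonneg _) (Ne.symm hz0)
      have h6 : κ * ‖z‖ ≤ 2 * L * ‖v‖ := by
        have : (κ * ‖z‖) * ‖z‖ ≤ (2 * L * ‖v‖) * ‖z‖ := by nlinarith
        exact le_of_mul_le_mul_right this hzp
      rw [div_mul_eq_mul_div, le_div_iff₀ hκ0]
      linarith
  calc ‖act M φ g v‖ = ‖c • v + z‖ := by congr 1; rw [hz]; abel
    _ ≤ ‖c • v‖ + ‖z‖ := norm_add_le _ _
    _ ≤ ‖v‖ + 2 * L / κ * ‖v‖ := by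
        rw [norm_smul, hc, one_mul]
        linarith
    _ = _ := by ring

/-- central elements act boundedly -/
theorem central_bound (hx : 0 < cos φ) {g : Artin M} (hg : g ∈ Subgroup.center (Artin M))
    (v : S → ℂ) : ‖act M φ g v‖ ≤ ‖v‖ := by
  have hx' : ((2 * cos φ : ℝ) : ℂ) ≠ 0 := by
    have : (2 * cos φ : ℝ) ≠ 0 := by positivity
    exact_mod_cast this
  have h1 : ∀ i, ∃ c : ℂ, ‖c‖ = 1 ∧ act M φ g (ec i) = c • ec i := by
    intro i
    set w := act M φ g (ec i) with hw
    have hc : T M φ i w = act M φ g (T M φ i (ec i)) := by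
      rw [← act_gen, hw, ← act_mul_apply, ← act_mul_apply, (Subgroup.mem_center_iff.mp hg _)]
    have h2 : T M φ i (ec i) = - (uu φ)⁻¹ • ec i := by
      rw [T_apply, beta_self, ← uu_add]
      module
    rw [h2, map_smul, ← hw, T_apply] at hc
    have h3 : ((2 * cos φ : ℝ) : ℂ) • w = beta M φ i w • ec i := by
      rw [← uu_add]
      have : (uu φ + (uu φ)⁻¹) • w = uu φ • w - (- (uu φ)⁻¹) • w := by module
      rw [this, ← hc]
      abel
    set c := (((2 * cos φ : ℝ) : ℂ))⁻¹ * beta M φ i w with hcdef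
    have h4 : w = c • ec i := by
      rw [hcdef, mul_smul, ← h3, smul_smul, inv_mul_cancel₀ hx', one_smul]
    refine ⟨c, ?_, h4⟩
    have h5 := H_act M φ g (ec i) (ec i)
    rw [← hw, h4, H_smul_left, H_smul_right, H_ec_left, beta_self, ← mul_assoc] at h5
    have h6 : (starRingEnd ℂ) c * c = 1 := by
      apply mul_right_cancel₀ hx'
      rw [h5, one_mul]
    rw [mul_comm, Complex.mul_conj, Complex.normSq_eq_norm_sq] at h6
    have h7 : ‖c‖ ^ 2 = 1 := by exact_mod_cast h6
    nlinarith [norm_nonneg c]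
  choose c hc hcv using h1
  have hv : v = ∑ i, v i • ec i := by
    ext j
    simp [ec, Finset.sum_apply, Pi.single_apply]
  have h8 : ∀ j, act M φ g v j = c j * v j := by
    intro j
    conv_lhs => rw [hv]
    rw [map_sum, Finset.sum_apply, Finset.sum_eq_single j]
    · rw [map_smul, hcv]
      simp [mul_comm]
    · intro i _ hi
      rw [map_smul, hcv]
      simp [ec, Pi.single_eq_of_ne hi.symm]
    · intro h; exact absurd (mem_univ j) h
  rw [pi_norm_le_iff_of_nonneg (norm_nonneg _)]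
  intro j
  rw [h8, norm_mul, hc, one_mul]
  exact norm_le_pi_norm v j

end bounded

end Pool.Agent.TH538.AT
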