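import Mathlib
import Pool.Agent.TH538.AT.Bnd

/-! The centralizer of a standard generator acts unboundedly. -/

set_option autoImplicit false
set_option linter.unusedSectionVars false
set_option linter.unusedVariables false

namespace Pool.Agent.TH538.AT

open Pool.Agent.Helper741 Real Finset

variable {S : Type*} [Fintype S] [DecidableEq S] (M : CoxeterMatrix S) (φ : ℝ)

lemma continuous_H : Continuous (fun v : S → ℂ => (H M φ v v).re) := by
  have h : (fun v : S → ℂ => (H M φ v v).re) = fun z => 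
      (2 * cos φ * nn (fun i => (z i).re) - qf (Nm M) (fun i => (z i).re)) +
      (2 * cos φ * nn (fun i => (z i).im) - qf (Nm M) (fun i => (z i).im)) := by
    funext z
    exact H_self_re M φ z
  rw [h]
  unfold nn qf
  fun_prop

/-- elements commuting with the generator `s` -/
def Cen (s : S) : Set (Artin M) := {g | g * Artin.gen M s = Artin.gen M s * g}

lemma cen_one (s : S) : (1 : Artin M) ∈ Cen M s := by simp [Cen]

lemma cen_gen (s : S) : Artin.gen M s ∈ Cen M s := rfl

lemma cen_mul {s : S} {g h : Artin M} (hg : g ∈ Cen M s) (hh : h ∈ Cen M s) : g * h ∈ Cen M s := by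
  unfold Cen at *
  rw [Set.mem_ofPred_eq] at *
  rw [mul_assoc, hh, ← mul_assoc, hg, mul_assoc]

lemma cen_pow (s t : S) : (Artin.gen M s * Artin.gen M t) ^ (M s t) ∈ Cen M s := by
  unfold Cen
  rw [Set.mem_ofPred_eq]
  have h := pow_eq_of_alt _ _ _ (Artin.rel (M := M) s t)
  conv_rhs => rw [h]
  exact mul_pow_mul _ _ _

/-- convex set of vectors with bounded orbit -/
def KK (s : S) : Set (S → ℂ) := {v | ∀ g ∈ Cen M s, ‖act M φ g v‖ ≤ 1}

lemma isCompact_KK (s : S) : IsCompact (KK M φ s) := by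
  apply Metric.isCompact_of_isClosed_isBounded
  · have : KK M φ s = ⋂ g ∈ Cen M s, {v | ‖act M φ g v‖ ≤ 1} := by
      ext v; simp [KK]
    rw [this]
    refine isClosed_biInter fun g _ => ?_
    have hc : Continuous (fun v => act M φ g v) := LinearMap.continuous_of_finiteDimensional _
    exact isClosed_le hc.norm continuous_const
  · rw [Metric.isBounded_iff_subset_closedBall 0]
    refine ⟨1, fun v hv => ?_⟩
    rw [mem_closedBall_zero_iff]
    have := hv 1 (cen_one M s)
    rwa [act_one] at this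

/-- the minimality inequality -/
lemma min_ineq {s : S} {v₀ : S → ℂ} (h0 : v₀ ∈ KK M φ s)
    (hmin : ∀ v ∈ KK M φ s, (H M φ v₀ v₀).re ≤ (H M φ v v).re) {g : Artin M} (hg : g ∈ Cen M s)
    {c : ℂ} (hc : ‖c‖ = 1) : (H M φ v₀ v₀).re ≤ (H M φ v₀ (c • act M φ g v₀)).re := by
  set r := c • act M φ g v₀ with hr
  have hw : ((1 / 2 : ℝ) : ℂ) • (v₀ + r) ∈ KK M φ s := by
    intro h hh
    rw [map_smul, map_add, hr, map_smul, ← act_mul_apply]
    have h1 := h0 h hh
    have h2 := h0 (h * g) (cen_mul M hh hg)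
    rw [norm_smul, Complex.norm_real]
    have h3 := norm_add_le (act M φ h v₀) (c • act M φ (h * g) v₀)
    rw [norm_smul, hc, one_mul] at h3
    rw [Real.norm_of_nonneg (by norm_num)]
    linarith
  have h1 := hmin _ hw
  have hrr : H M φ r r = H M φ v₀ v₀ := by
    have hcc : (starRingEnd ℂ) c * c = 1 := by
      rw [mul_comm, Complex.mul_conj, Complex.normSq_eq_norm_sq, hc]
      simp
    rw [hr, H_smul_left, H_smul_right, H_act, ← mul_assoc, hcc, one_mul]
  have hrv : (H M φ r v₀).re = (H M φ v₀ r).re := by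
    rw [← H_conj, Complex.conj_re]
  rw [H_smul_left, H_smul_right, H_add_left, H_add_right, H_add_right, hrr, Complex.conj_ofReal,
    Complex.re_ofReal_mul, Complex.re_ofReal_mul, Complex.add_re, Complex.add_re, Complex.add_re,
    hrv] at h1
  linarith

section pair

variable {M φ}

/-- hypotheses for a pair of generators -/
structure Good (M : CoxeterMatrix S) (φ : ℝ) (s t : S) : Prop where
  hst : s ≠ t
  hpos : 0 < φ
  hcos : 0 < cos φ
  hm : 2 ≤ M s t
  hlt : φ < π / (M s t : ℝ)
  hN : Nm M s t < 2 * cos φ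

/-- `(s t)^m` fixes `e_s` and `e_t` -/
lemma Good.act_fix {s t : S} (h : Good M φ s t) :
    act M φ ((Artin.gen M s * Artin.gen M t) ^ (M s t)) (ec s) = ec s ∧
    act M φ ((Artin.gen M s * Artin.gen M t) ^ (M s t)) (ec t) = ec t := by
  have hx' : ((2 * cos φ : ℝ) : ℂ) ≠ 0 := by
    have : (2 * cos φ : ℝ) ≠ 0 := by have := h.hcos; positivity
    exact_mod_cast this
  have hpow : ∀ m : ℕ, act M φ ((Artin.gen M s * Artin.gen M t) ^ m) = (T M φ s * T M φ t) ^ m := by
    intro m
    induction m with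
    | zero => simp
    | succ m ih => rw [pow_succ, act_mul, ih, act_mul, act_gen, act_gen, pow_succ]
  rw [hpow]
  rcases Nat.lt_or_ge (M s t) 3 with h3 | h3
  · have h2 : M s t = 2 := by have := h.hm; omega
    have hN : Nm M s t = 0 := by
      rw [Nm_ne M h.hst, h2]
      simp
    rw [h2]
    have e1 : T M φ s (ec s) = -(uu φ)⁻¹ • ec s := by
      rw [T_apply, beta_self, ← uu_add]; module
    have e2 : T M φ t (ec t) = -(uu φ)⁻¹ • ec t := by
      rw [T_apply, beta_self, ← uu_add]; module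
    have e3 : T M φ t (ec s) = uu φ • ec s := by
      rw [T_apply, beta_ne M φ h.hst.symm, Nm_symm, hN]; simp
    have e4 : T M φ s (ec t) = uu φ • ec t := by
      rw [T_apply, beta_ne M φ h.hst, hN]; simp
    have hu := uu_ne φ
    constructor
    · rw [pow_two, Module.End.mul_apply, Module.End.mul_apply, Module.End.mul_apply, e3, map_smul,
        e1, map_smul, map_smul, map_smul, map_smul, e3, map_smul, e1]
      match_scalars
      field_simp
    · rw [pow_two, Module.End.mul_apply, Module.End.mul_apply, Module.End.mul_apply, e2, map_smul,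
        e4, map_smul, map_smul, map_smul, map_smul, e2, map_smul, e4]
      match_scalars
      field_simp
  · have hp := bop_pair M φ h.hst
    rw [Nm_ne M h.hst] at hp
    have h1 := hp.pow_mul_eq (M s t) h3 (bop M φ s) hp.Z_mul_left
    have h2 := hp.pow_mul_eq (M s t) h3 (bop M φ t) hp.Z_mul_right
    constructor
    · have h4 := congrArg (fun A : Module.End ℂ (S → ℂ) => A (ec s)) h1
      simp only [Module.End.mul_apply] at h4
      rw [bop_apply, beta_self, map_smul] at h4
      exact smul_right_injective _ hx' h4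
    · have h4 := congrArg (fun A : Module.End ℂ (S → ℂ) => A (ec t)) h2
      simp only [Module.End.mul_apply] at h4
      rw [bop_apply, beta_self, map_smul] at h4
      exact smul_right_injective _ hx' h4

lemma act_perp {s t : S} (v : S → ℂ) (hs : beta M φ s v = 0) (ht : beta M φ t v = 0) (m : ℕ) :
    act M φ ((Artin.gen M s * Artin.gen M t) ^ m) v = (uu φ) ^ (2 * m) • v := by
  induction m with
  | zero => simp
  | succ m ih =>
    have e1 : T M φ t v = uu φ • v := by rw [T_apply, ht, zero_smul, sub_zero]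
    have e2 : T M φ s v = uu φ • v := by rw [T_apply, hs, zero_smul, sub_zero]
    rw [pow_succ', act_mul_apply, ih, act_mul_apply, act_gen, act_gen, map_smul, map_smul, e1,
      map_smul, e2, smul_smul, smul_smul]
    congr 1

lemma Good.re_lt {s t : S} (h : Good M φ s t) : ((uu φ) ^ (2 * M s t)).re < 1 := by
  rw [uu_pow_re]
  have hm : (0 : ℝ) < (M s t : ℝ) := by
    have := h.hm
    exact_mod_cast (by omega : 0 < M s t)
  have h1 : ((2 * M s t : ℕ) : ℝ) * φ = 2 * ((M s t : ℝ) * φ) := by push_cast; ring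
  rw [h1, cos_two_mul, cos_sq']
  have h2 : 0 < sin ((M s t : ℝ) * φ) := by
    apply sin_pos_of_pos_of_lt_pi
    · exact mul_pos hm h.hpos
    · have := h.hlt
      rw [lt_div_iff₀ hm] at this
      linarith
  have h3 : 0 < sin ((M s t : ℝ) * φ) ^ 2 := by positivity
  linarith

/-- a minimizer is orthogonal to `e_s` -/
lemma beta_s_zero {s : S} (hcos : 0 < cos φ) {v₀ : S → ℂ} (h0 : v₀ ∈ KK M φ s)
    (hmin : ∀ v ∈ KK M φ s, (H M φ v₀ v₀).re ≤ (H M φ v v).re) : beta M φ s v₀ = 0 := by
  have h1 := min_ineq M φ h0 hmin (cen_gen M s) (c := (uu φ)⁻¹) (by rw [norm_inv, norm_uu, inv_one])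
  rw [act_gen, T_apply, smul_sub, smul_smul, inv_mul_cancel₀ (uu_ne φ), one_smul, H_sub_right,
    smul_smul, H_smul_right, H_ec_right, mul_assoc, Complex.mul_conj, Complex.sub_re, mul_comm,
    Complex.re_ofReal_mul, ← conj_uu, Complex.conj_re] at h1
  have h2 : (uu φ).re = cos φ := by
    have := uu_pow_re φ 1
    simpa using this
  rw [h2] at h1
  have h3 : Complex.normSq (beta M φ s v₀) ≤ 0 := by
    by_contra hcon
    push Not at hcon
    have := mul_pos hcon hcos
    linarith
  exact Complex.normSq_eq_zero.mp (le_antisymm h3 (Complex.normSq_nonneg _))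

/-- a minimizer is orthogonal to `e_t` -/
lemma Good.beta_zero {s t : S} (h : Good M φ s t) {v₀ : S → ℂ} (h0 : v₀ ∈ KK M φ s)
    (hmin : ∀ v ∈ KK M φ s, (H M φ v₀ v₀).re ≤ (H M φ v v).re) : beta M φ t v₀ = 0 := by
  have hs := beta_s_zero h.hcos h0 hmin
  set x : ℝ := 2 * cos φ with hx
  set N : ℝ := Nm M s t with hN
  have hN0 : 0 ≤ N := Nm_nonneg M s t
  have hNx : N < x := h.hN
  have hx0 : 0 < x := lt_of_le_of_lt hN0 hNx
  set D : ℝ := x ^ 2 - N ^ 2 with hD
  have hD0 : 0 < D := by rw [hD]; nlinarith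
  set r := beta M φ t v₀ with hr
  set w := (((N / D : ℝ) : ℂ) * r) • ec s + (((x / D : ℝ) : ℂ) * r) • ec t with hw
  have hDC : ((D : ℝ) : ℂ) ≠ 0 := by exact_mod_cast hD0.ne'
  have b1 : beta M φ s w = 0 := by
    rw [hw, map_add, map_smul, map_smul, beta_self, beta_ne M φ h.hst, ← hx, ← hN, smul_eq_mul,
      smul_eq_mul]
    push_cast
    field_simp
    ring
  have b2 : beta M φ t w = r := by
    rw [hw, map_add, map_smul, map_smul, beta_self, beta_ne M φ h.hst.symm, Nm_symm M t s, ← hx,
      ← hN, smul_eq_mul, smul_eq_mul]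
    have : ((D : ℝ) : ℂ) = (x : ℂ) ^ 2 - (N : ℂ) ^ 2 := by rw [hD]; push_cast; ring
    push_cast
    field_simp
    rw [this]
    ring
  set v' := v₀ - w with hv'
  have c1 : beta M φ s v' = 0 := by rw [hv', map_sub, hs, b1, sub_zero]
  have c2 : beta M φ t v' = 0 := by rw [hv', map_sub, b2, ← hr, sub_self]
  set m := M s t with hm
  have hact : act M φ ((Artin.gen M s * Artin.gen M t) ^ m) v₀ = (uu φ) ^ (2 * m) • v' + w := by
    have e : v₀ = v' + w := by rw [hv']; abel
    conv_lhs => rw [e]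
    rw [map_add, act_perp v' c1 c2 m]
    congr 1
    conv_lhs => rw [hw]
    rw [map_add, map_smul, map_smul, hm, h.act_fix.1, h.act_fix.2]
  have hu0 : (uu φ) ^ (2 * m) ≠ 0 := pow_ne_zero _ (uu_ne φ)
  have hnorm : ‖((uu φ) ^ (2 * m))⁻¹‖ = 1 := by rw [norm_inv, norm_pow, norm_uu]; simp
  have h1 := min_ineq M φ h0 hmin (cen_pow M s t) (c := ((uu φ) ^ (2 * m))⁻¹) hnorm
  rw [← hm, hact, smul_add, smul_smul, inv_mul_cancel₀ hu0, one_smul] at h1
  have e2 : v' + ((uu φ) ^ (2 * m))⁻¹ • w = v₀ - (1 - ((uu φ) ^ (2 * m))⁻¹) • w := by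
    rw [hv']; module
  rw [e2, H_sub_right, H_smul_right, Complex.sub_re] at h1
  have e3 : H M φ v₀ w = (((x / D) * Complex.normSq r : ℝ) : ℂ) := by
    rw [hw, H_add_right, H_smul_right, H_smul_right, H_ec_right, H_ec_right, hs, ← hr, map_zero,
      mul_zero, zero_add, mul_assoc, Complex.mul_conj]
    push_cast
    ring
  rw [e3, mul_comm, Complex.re_ofReal_mul, Complex.sub_re, Complex.one_re] at h1
  have e4 : (((uu φ) ^ (2 * m))⁻¹).re = ((uu φ) ^ (2 * m)).re := by
    rw [← inv_pow, ← conj_uu, ← map_pow, Complex.conj_re]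
  rw [e4] at h1
  have e5 := h.re_lt
  rw [← hm] at e5
  have h3 : Complex.normSq r ≤ 0 := by
    by_contra hcon
    push Not at hcon
    have h4 : 0 < x / D * Complex.normSq r * (1 - ((uu φ) ^ (2 * m)).re) := by
      have : 0 < 1 - ((uu φ) ^ (2 * m)).re := by linarith
      positivity
    linarith
  exact Complex.normSq_eq_zero.mp (le_antisymm h3 (Complex.normSq_nonneg _))

/-- **The centralizer of a generator acts unboundedly.** -/
theorem unbounded {s : S} (hcos : 0 < cos φ) (hgood : ∀ t, t ≠ s → Good M φ s t)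
    {y : S → ℝ} (hy : nn y = 1) (hq : 2 * cos φ < qf (Nm M) y) (K : ℝ) :
    ∃ g ∈ Cen M s, ∃ v : S → ℂ, K * ‖v‖ < ‖act M φ g v‖ := by
  by_contra hcon
  push Not at hcon
  have hK : ∀ g ∈ Cen M s, ∀ v : S → ℂ, ‖act M φ g v‖ ≤ |K| * ‖v‖ := fun g hg v =>
    (hcon g hg v).trans (mul_le_mul_of_nonneg_right (le_abs_self K) (norm_nonneg v))
  set p : S → ℂ := fun i => (y i : ℂ) with hp
  have hpneg : (H M φ p p).re < 0 := by
    rw [H_self_re]
    have e1 : (fun i => (p i).re) = y := by funext i; simp [hp]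
    have e2 : (fun i => (p i).im) = 0 := by funext i; simp [hp]
    rw [e1, e2, hy]
    have e3 : nn (0 : S → ℝ) = 0 := by simp [nn]
    have e4 : qf (Nm M) (0 : S → ℝ) = 0 := by simp [qf]
    rw [e3, e4]
    linarith
  set d : ℝ := (|K| * ‖p‖ + 1)⁻¹ with hd
  have hd0 : 0 < d := by positivity
  have hpK : ((d : ℝ) : ℂ) • p ∈ KK M φ s := by
    intro g hg
    rw [map_smul, norm_smul, Complex.norm_real, Real.norm_of_nonneg hd0.le]
    have h1 := hK g hg p
    have h2 : |K| * ‖p‖ ≤ |K| * ‖p‖ + 1 := by linarith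
    calc d * ‖act M φ g p‖ ≤ d * (|K| * ‖p‖ + 1) :=
          mul_le_mul_of_nonneg_left (h1.trans h2) hd0.le
      _ = 1 := by rw [hd]; apply inv_mul_cancel₀; positivity
  obtain ⟨v₀, hv₀, hmin⟩ := (isCompact_KK M φ s).exists_isMinOn ⟨_, hpK⟩
    (continuous_H M φ).continuousOn
  have hmin' : ∀ v ∈ KK M φ s, (H M φ v₀ v₀).re ≤ (H M φ v v).re := fun v hv => hmin hv
  have hneg : (H M φ v₀ v₀).re < 0 := by
    refine (hmin' _ hpK).trans_lt ?_
    rw [H_smul_left, H_smul_right, Complex.conj_ofReal, Complex.re_ofReal_mul,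
      Complex.re_ofReal_mul]
    have : 0 < d * d := by positivity
    nlinarith
  have hzero : ∀ t, beta M φ t v₀ = 0 := by
    intro t
    by_cases hts : t = s
    · subst hts
      exact beta_s_zero hcos hv₀ hmin'
    · exact (hgood t hts).beta_zero hv₀ hmin'
  have : H M φ v₀ v₀ = 0 := by
    unfold H
    apply sum_eq_zero
    intro i _
    rw [hzero, mul_zero]
  rw [this] at hneg
  simp at hneg

end pair

end Pool.Agent.TH538.AT
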