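import Mathlib
import Pool.Agent.TH538.AT.Unb

/-! The parabolic generating set is strictly coarser than the normalizer generating set. -/

set_option autoImplicit false
set_option linter.unusedSectionVars false
set_option linter.unusedVariables false

namespace Pool.Agent.TH538.AT

open Pool.Agent.Helper741 Real Finset

section words

variable {G : Type*} [Group G]

lemma wordLength_le {X : Set G} {g : G} {l : List G} (hl : ∀ x ∈ l, x ∈ X ∨ x⁻¹ ∈ X)
    (hp : l.prod = g) : wordLength X g ≤ l.length :=
  iInf₂_le (f := fun (l : List G) _ => (l.length : ℕ∞)) l ⟨hl, hp⟩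

lemma exists_word {X : Set G} {g : G} {k : ℕ} (h : wordLength X g ≤ k) :
    ∃ l : List G, (∀ x ∈ l, x ∈ X ∨ x⁻¹ ∈ X) ∧ l.prod = g ∧ l.length ≤ k := by
  by_contra hcon
  push Not at hcon
  have h1 : ((k + 1 : ℕ) : ℕ∞) ≤ wordLength X g := by
    unfold wordLength
    refine le_iInf₂ fun l hl => ?_
    have := hcon l hl.1 hl.2
    exact_mod_cast this
  have h2 : ((k + 1 : ℕ) : ℕ∞) ≤ (k : ℕ∞) := h1.trans h
  have h3 : k + 1 ≤ k := by exact_mod_cast h2
  omega

lemma wordLength_of_mem {X : Set G} {g : G} (h : g ∈ X) : wordLength X g ≤ 1 := by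
  have := wordLength_le (X := X) (g := g) (l := [g]) (by simpa using Or.inl h) (by simp)
  simpa using this

lemma wordLength_lt_top {X : Set G} (hX : Subgroup.closure X = ⊤) (g : G) :
    wordLength X g < ⊤ := by
  have hg : g ∈ Subgroup.closure X := by rw [hX]; trivial
  have h : ∃ l : List G, (∀ x ∈ l, x ∈ X ∨ x⁻¹ ∈ X) ∧ l.prod = g := by
    induction hg using Subgroup.closure_induction with
    | mem x hx => exact ⟨[x], by simpa using Or.inl hx, by simp⟩
    | one => exact ⟨[], by simp, by simp⟩
    | mul x y _ _ hx hy =>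
      obtain ⟨l, hl, rfl⟩ := hx
      obtain ⟨l', hl', rfl⟩ := hy
      refine ⟨l ++ l', ?_, by simp⟩
      intro z hz
      rw [List.mem_append] at hz
      rcases hz with h | h
      · exact hl z h
      · exact hl' z h
    | inv x _ hx =>
      obtain ⟨l, hl, rfl⟩ := hx
      refine ⟨(l.map fun y => y⁻¹).reverse, ?_, by rw [List.prod_inv_reverse]⟩
      intro z hz
      rw [List.mem_reverse, List.mem_map] at hz
      obtain ⟨y, hy, rfl⟩ := hz
      rw [inv_inv]
      exact (hl y hy).symm
  obtain ⟨l, hl, hp⟩ := h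
  exact (wordLength_le hl hp).trans_lt (ENat.natCast_lt_top _)

lemma wordDist_one (X : Set G) (g : G) : wordDist X 1 g = wordLength X g := by
  unfold wordDist
  rw [inv_one, one_mul]

end words

variable {S : Type*} [Fintype S] [DecidableEq S] (M : CoxeterMatrix S)

lemma irr_of_connected (h : (coxGraph M).Connected) (U : Set S) (hU : U.Nonempty)
    (hU' : U ≠ Set.univ) : ∃ i ∈ U, ∃ j ∉ U, 0 < Nm M i j := by
  obtain ⟨a, ha⟩ := hU
  obtain ⟨b, hb⟩ : ∃ b, b ∉ U := by
    by_contra hcon
    push Not at hcon
    exact hU' (Set.eq_univ_of_forall hcon)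
  obtain ⟨p⟩ := h.preconnected a b
  obtain ⟨d, -, hd1, hd2⟩ := p.exists_boundary_dart U ha hb
  exact ⟨d.fst, hd1, d.snd, hd2, Nm_pos M d.adj.1 d.adj.2⟩

lemma properIrreducible_singleton (h : 2 ≤ Fintype.card S) (s : S) :
    ProperIrreducible M {s} := by
  constructor
  · intro hcon
    have h1 : ∀ t : S, t = s := by
      intro t
      have : t ∈ ({s} : Set S) := by rw [hcon]; trivial
      simpa using this
    have : Fintype.card S ≤ 1 := Fintype.card_le_one_iff.mpr fun a b => by rw [h1 a, h1 b]
    omega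
  · have : Nonempty ({s} : Set S) := ⟨⟨s, rfl⟩⟩
    refine SimpleGraph.Connected.mk ?_
    intro a b
    have hab : a = b := Subtype.ext (a.2.trans b.2.symm)
    rw [hab]

lemma garside_sq_central [Finite M.Group] {d : Artin M} (hd : IsGarside M d) :
    d ^ 2 ∈ Subgroup.center (Artin M) := by
  obtain ⟨ω, hred, hmax, rfl⟩ := hd
  have h := delta_sq_center (cs := M.toCoxeterSystem) hmax
  rw [sec_eq M.toCoxeterSystem ω hred] at h
  rw [pow_two]
  exact h

/-- elements commuting with a generator normalize the subgroup it generates -/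
lemma cen_sub_normalizer {s : S} {g : Artin M} (hg : g ∈ Cen M s) :
    g ∈ Subgroup.normalizer (parabolic M {s} : Set (Artin M)) := by
  have hc : ∀ n ∈ parabolic M {s}, g * n * g⁻¹ = n := by
    intro n hn
    unfold parabolic at hn
    have h1 : Commute g n := by
      induction hn using Subgroup.closure_induction with
      | mem x hx =>
        obtain ⟨i, hi, rfl⟩ := hx
        rw [Set.mem_singleton_iff] at hi
        subst hi
        exact hg
      | one => exact Commute.one_right _
      | mul x y _ _ hx hy => exact hx.mul_right hy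
      | inv x _ hx => exact hx.inv_right
    rw [h1.eq, mul_inv_cancel_right]
  rw [Subgroup.mem_normalizer_iff]
  intro n
  constructor
  · intro hn
    rw [hc n hn]
    exact hn
  · intro hn
    have h2 := hc _ hn
    have h3 : g * n * g⁻¹ = n := by
      have h4 : g * (g * n * g⁻¹) * g⁻¹ = g * n * g⁻¹ := h2
      have h5 : g * n * g⁻¹ = n := by
        have := mul_right_cancel h4
        exact mul_left_cancel this
      exact h5
    rw [h3] at hn
    exact hn

/-- **Main inequality.** -/
theorem main_unbounded [Finite M.Group] (hirr : (coxGraph M).Connected)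
    (hcard : 3 ≤ Fintype.card S) (k : ℕ) : ∃ g ∈ XNP M, (k : ℕ∞) < wordLength (XP M) g := by
  have : Fintype M.Group := Fintype.ofFinite _
  have : Nonempty S := Fintype.card_pos_iff.mp (by omega)
  have hi := irr_of_connected M hirr
  obtain ⟨lam, mu, y, hy1, hyq, hlt, hmu⟩ := gap (Nm_symm M) (Nm_nonneg M) hi
  have hy0 : y ≠ 0 := by
    rintro rfl
    simp [nn] at hy1
  have hlam2 : lam < 2 := by
    have := qf_lt M hi y hy0
    rw [hyq, hy1] at this
    linarith
  -- distinct elements
  have hthird : ∀ s t : S, ∃ r, r ≠ s ∧ r ≠ t := by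
    intro s t
    by_contra hcon
    push Not at hcon
    have : (univ : Finset S) ⊆ {s, t} := by
      intro r _
      rw [mem_insert, mem_singleton]
      by_cases h : r = s
      · exact Or.inl h
      · exact Or.inr (hcon r h)
    have h2 := card_le_card this
    have h3 := card_le_two (a := s) (b := t)
    rw [card_univ] at h2
    omega
  have hmu0 : 0 ≤ mu := by
    obtain ⟨s⟩ := ‹Nonempty S›
    obtain ⟨t, ht, -⟩ := hthird s s
    have h1 := hmu s (Pi.single t 1) (Pi.single_eq_of_ne ht.symm _)
    have h2 : nn (Pi.single t (1 : ℝ) : S → ℝ) = 1 := by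
      unfold nn
      rw [sum_eq_single t]
      · simp
      · intro i _ hi
        simp [Pi.single_eq_of_ne hi]
      · intro h; exact absurd (mem_univ t) h
    have h3 : 0 ≤ qf (Nm M) (Pi.single t (1 : ℝ) : S → ℝ) := by
      unfold qf
      refine sum_nonneg fun i _ => sum_nonneg fun j _ => ?_
      refine mul_nonneg (mul_nonneg (Nm_nonneg M i j) ?_) ?_
      · by_cases h : i = t
        · subst h; simp
        · simp [Pi.single_eq_of_ne h]
      · by_cases h : j = t
        · subst h; simp
        · simp [Pi.single_eq_of_ne h]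
    rw [h2, mul_one] at h1
    linarith
  have hNmu : ∀ s t : S, s ≠ t → Nm M s t ≤ mu := by
    intro s t hst
    obtain ⟨r, hrs, hrt⟩ := hthird s t
    set z : S → ℝ := Pi.single s 1 + Pi.single t 1 with hz
    have hzr : z r = 0 := by
      rw [hz, Pi.add_apply, Pi.single_eq_of_ne hrs, Pi.single_eq_of_ne hrt, add_zero]
    have h1 := hmu r z hzr
    have hsum : ∀ f : S → ℝ, ∑ i, f i * z i = f s + f t := by
      intro f
      have : ∀ i, f i * z i = f i * (Pi.single s 1 : S → ℝ) i + f i * (Pi.single t 1 : S → ℝ) i := by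
        intro i
        rw [hz, Pi.add_apply, mul_add]
      simp only [this, sum_add_distrib]
      rw [sum_single_mul, sum_single_mul]
      ring
    have hzs : z s = 1 := by
      rw [hz, Pi.add_apply, Pi.single_eq_same, Pi.single_eq_of_ne hst, add_zero]
    have hzt : z t = 1 := by
      rw [hz, Pi.add_apply, Pi.single_eq_same, Pi.single_eq_of_ne hst.symm, zero_add]
    have h2 : nn z = 2 := by
      unfold nn
      have : ∀ i, z i ^ 2 = z i * z i := fun i => by ring
      simp only [this]
      rw [hsum z, hzs, hzt]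
      norm_num
    have h3 : qf (Nm M) z = 2 * Nm M s t := by
      unfold qf
      have : ∀ i, ∑ j, Nm M i j * z i * z j = (Nm M i s + Nm M i t) * z i := by
        intro i
        rw [hsum (fun j => Nm M i j * z i)]
        ring
      simp only [this]
      rw [hsum (fun i => Nm M i s + Nm M i t), Nm_self, Nm_self, Nm_symm M t s]
      ring
    rw [h2, h3] at h1
    linarith
  -- the parameter
  obtain ⟨x, hx1, hx2⟩ := exists_between hlt
  set φ := arccos (x / 2) with hφ
  have hcosφ : 2 * cos φ = x := by
    rw [hφ, cos_arccos (by linarith) (by linarith)]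
    ring
  have hcos : 0 < cos φ := by linarith
  have hφ0 : 0 < φ := by
    rw [hφ, arccos_pos]
    linarith
  have hφπ : φ ≤ π := arccos_le_pi _
  have hgood : ∀ s t : S, s ≠ t → Good M φ s t := by
    intro s t hst
    have hN : Nm M s t < 2 * cos φ := by
      rw [hcosφ]
      exact (hNmu s t hst).trans_lt hx1
    have hm : 2 ≤ M s t := by
      by_contra hcon
      have h0 : M s t = 0 := by
        have := M.off_diagonal s t hst
        omega
      rw [Nm_ne M hst, h0] at hN
      simp at hN
      linarith [cos_le_one φ]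
    refine ⟨hst, hφ0, hcos, hm, ?_, hN⟩
    by_contra hcon
    push Not at hcon
    have h1 : cos φ ≤ cos (π / (M s t : ℝ)) := by
      apply cos_le_cos_of_nonneg_of_le_pi _ hφπ hcon
      positivity
    rw [Nm_ne M hst] at hN
    linarith
  -- boundedness of the parabolic generating set
  obtain ⟨K, hK1, hK⟩ := parabolic_bound M φ hmu (by rw [hcosφ]; exact hx1)
  have hXP : ∀ x : Artin M, (x ∈ XP M ∨ x⁻¹ ∈ XP M) → ∀ v : S → ℂ, ‖act M φ x v‖ ≤ K * ‖v‖ := by
    intro x hx v
    have hx' : (∃ T', ProperIrreducible M T' ∧ x ∈ parabolic M T') ∨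
        x ∈ Subgroup.center (Artin M) := by
      rcases hx with (⟨T', hT', hxT⟩ | ⟨d, hd, hxd⟩) | (⟨T', hT', hxT⟩ | ⟨d, hd, hxd⟩)
      · exact Or.inl ⟨T', hT', hxT⟩
      · exact Or.inr ((Subgroup.zpowers_le.mpr (garside_sq_central M hd)) hxd)
      · exact Or.inl ⟨T', hT', by simpa using inv_mem hxT⟩
      · right
        have := (Subgroup.zpowers_le.mpr (garside_sq_central M hd)) hxd
        simpa using inv_mem this
    rcases hx' with ⟨T', hT', hxT⟩ | hc
    · exact hK T' hT'.1 x hxT v
    · refine (central_bound M φ hcos hc v).trans ?_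
      nlinarith [norm_nonneg v]
  have hword : ∀ l : List (Artin M), (∀ x ∈ l, x ∈ XP M ∨ x⁻¹ ∈ XP M) → ∀ v : S → ℂ,
      ‖act M φ l.prod v‖ ≤ K ^ l.length * ‖v‖ := by
    intro l
    induction l with
    | nil => intro _ v; simp
    | cons a l ih =>
      intro hl v
      rw [List.prod_cons, act_mul_apply, List.length_cons, pow_succ']
      have h1 := hXP a (hl a (by simp)) (act M φ l.prod v)
      have h2 := ih (fun x hx => hl x (by simp [hx])) v
      calc ‖act M φ a (act M φ l.prod v)‖ ≤ K * ‖act M φ l.prod v‖ := h1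
        _ ≤ K * (K ^ l.length * ‖v‖) := mul_le_mul_of_nonneg_left h2 (by linarith)
        _ = _ := by ring
  obtain ⟨s⟩ := ‹Nonempty S›
  obtain ⟨g, hg, v, hgv⟩ := unbounded (M := M) hcos (fun t ht => hgood s t ht.symm) hy1
    (by rw [hyq, hcosφ]; exact hx2) (K ^ k)
  refine ⟨g, ⟨{s}, properIrreducible_singleton M (by omega) s, cen_sub_normalizer M hg⟩, ?_⟩
  by_contra hcon
  push Not at hcon
  obtain ⟨l, hl, rfl, hlk⟩ := exists_word hcon
  have h1 := hword l hl v
  have h2 : K ^ l.length ≤ K ^ k := pow_le_pow_right₀ hK1 hlk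
  have h3 : K ^ l.length * ‖v‖ ≤ K ^ k * ‖v‖ := mul_le_mul_of_nonneg_right h2 (norm_nonneg v)
  linarith

lemma closure_XP (hcard : 2 ≤ Fintype.card S) : Subgroup.closure (XP M) = ⊤ := by
  rw [eq_top_iff, ← Artin.closure_range_gen, Subgroup.closure_le]
  rintro _ ⟨i, rfl⟩
  apply Subgroup.subset_closure
  left
  exact ⟨{i}, properIrreducible_singleton M hcard i, Subgroup.subset_closure ⟨i, rfl, rfl⟩⟩

lemma XP_sub_XNP [Finite M.Group] (hcard : 2 ≤ Fintype.card S) : XP M ⊆ XNP M := by
  rintro g (⟨T', hT', hg⟩ | ⟨d, hd, hg⟩)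
  · exact ⟨T', hT', Subgroup.le_normalizer hg⟩
  · have : Nonempty S := Fintype.card_pos_iff.mp (by omega)
    obtain ⟨s⟩ := ‹Nonempty S›
    refine ⟨{s}, properIrreducible_singleton M hcard s, cen_sub_normalizer M ?_⟩
    have h1 := (Subgroup.zpowers_le.mpr (garside_sq_central M hd)) hg
    exact ((Subgroup.mem_center_iff.mp h1) _).symm

end Pool.Agent.TH538.AT
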